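import Pool.Agent.Nav.Defs

/-!
# NAW-Defs : chains of subgroups (MP_549525_al)

`S` is a set of subgroups of `Γ`. `IsChn S c`: `c` is a nonempty finite chain of members of `S`.
`Nz c`: the intersection of the normalisers of the members of `c`. `IsNC S c`: a chain in which
every member normalises all members (normal chain). `sg c`: the sign `(-1)^(|c| - 1)`.
`top c`: the largest member.
-/

namespace Pool.Agent.NAW

open Pool.Agent.Nav

universe u

variable {Γ : Type u} [Group Γ]

/-- a nonempty finite chain of members of `S` -/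
def IsChn (S : Set (Subgroup Γ)) (c : Finset (Subgroup Γ)) : Prop :=
  c.Nonempty ∧ (∀ Q ∈ c, Q ∈ S) ∧ ∀ Q ∈ c, ∀ R ∈ c, Q ≤ R ∨ R ≤ Q

/-- the intersection of the normalisers of the members of `c` -/
def Nz (c : Finset (Subgroup Γ)) : Subgroup Γ := ⨅ Q ∈ c, Nm Q

/-- a normal chain: every member normalises all members -/
def IsNC (S : Set (Subgroup Γ)) (c : Finset (Subgroup Γ)) : Prop := IsChn S c ∧ ∀ Q ∈ c, Q ≤ Nz c

/-- the sign `(-1)^(|c| - 1)` -/
def sg {α : Type*} (c : Finset α) : ℤ := (-1) ^ (c.card + 1)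

/-- the largest member of a chain -/
def top (c : Finset (Subgroup Γ)) : Subgroup Γ := c.sup id

section

variable [Finite Γ]

noncomputable instance (priority := 10) fintypeSub : Fintype (Subgroup Γ) := Fintype.ofFinite _

open Classical in
/-- all chains in `S` -/
noncomputable def CHs (S : Set (Subgroup Γ)) : Finset (Finset (Subgroup Γ)) :=
  Finset.univ.filter (fun c => IsChn S c)

open Classical in
/-- all normal chains in `S` -/
noncomputable def NCs (S : Set (Subgroup Γ)) : Finset (Finset (Subgroup Γ)) :=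
  Finset.univ.filter (fun c => IsNC S c)

theorem mem_CHs {S : Set (Subgroup Γ)} {c : Finset (Subgroup Γ)} : c ∈ CHs S ↔ IsChn S c := by
  simp [CHs]

theorem mem_NCs {S : Set (Subgroup Γ)} {c : Finset (Subgroup Γ)} : c ∈ NCs S ↔ IsNC S c := by
  simp [NCs]

end

theorem mem_Nz {c : Finset (Subgroup Γ)} {x : Γ} : x ∈ Nz c ↔ ∀ Q ∈ c, x ∈ Nm Q := by
  simp [Nz, Subgroup.mem_iInf]

theorem Nz_le {c : Finset (Subgroup Γ)} {Q : Subgroup Γ} (h : Q ∈ c) : Nz c ≤ Nm Q :=
  fun _ hx => mem_Nz.1 hx Q h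

theorem le_top {c : Finset (Subgroup Γ)} {Q : Subgroup Γ} (h : Q ∈ c) : Q ≤ top c :=
  Finset.le_sup (f := id) h

theorem top_mem {S : Set (Subgroup Γ)} {c : Finset (Subgroup Γ)} (h : IsChn S c) : top c ∈ c := by
  obtain ⟨m, hm, hmax⟩ := c.exists_maximal h.1
  have h1 : top c = m := by
    refine le_antisymm (Finset.sup_le fun Q hQ => ?_) (le_top hm)
    rcases h.2.2 Q hQ m hm with h2 | h2
    · exact h2
    · exact hmax hQ h2
  rw [h1]
  exact hm

theorem sg_insert {α : Type*} [DecidableEq α] {c : Finset α} {a : α} (h : a ∉ c) :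
    sg (insert a c) = - sg c := by
  unfold sg
  rw [Finset.card_insert_of_notMem h, pow_succ]
  ring

theorem sg_erase {α : Type*} [DecidableEq α] {c : Finset α} {a : α} (h : a ∈ c) :
    sg (c.erase a) = - sg c := by
  have h1 := sg_insert (Finset.notMem_erase a c)
  rw [Finset.insert_erase h] at h1
  rw [h1, neg_neg]

/-- number of pairs of commuting elements `(x, y)` of `N` with `x` `p`-regular -/
noncomputable def prN (p : ℕ) (N : Subgroup Γ) : ℕ :=
  Nat.card {z : Γ × Γ // z.1 ∈ N ∧ z.2 ∈ N ∧ ¬ p ∣ orderOf z.1 ∧ z.1 * z.2 = z.2 * z.1}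

/-- `|N_N(P)| dz (N_N(P)/P)` -/
noncomputable def dN (p : ℕ) (N P : Subgroup Γ) : ℕ :=
  Nat.card (Nm (P.subgroupOf N)) * dz p (NQ (P.subgroupOf N))

/-- `T` is a Sylow `p`-subgroup of the subgroup `N` -/
def IsSyl (p : ℕ) (N T : Subgroup Γ) : Prop :=
  IsPGroup p T ∧ T ≤ N ∧ ∀ T' : Subgroup Γ, IsPGroup p T' → T' ≤ N → T ≤ T' → T' = T

end Pool.Agent.NAW
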