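/-
NAW/Awc.lean: the two sides of the Alperin weight conjecture in standard form.
-/
import Pool.Agent.NAW.Defs
import Pool.Agent.Nav.Final

namespace Pool.Agent.NAW

open Pool.Agent.Nav

universe u v

private theorem inv_top {k : Type v} [Field k] {H : Type u} [Group H]
    (ρ : IrrRep k (⊤ : Subgroup H)) : ρ.Invariant (⊤ : Subgroup H) := by
  intro γ
  have hinv : ∀ (a b : (⊤ : Subgroup H)), a * b = 1 → ρ.rep a ∘ₗ ρ.rep b = LinearMap.id := by
    intro a b hab
    have h1 := map_mul ρ.rep a b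
    rw [hab, map_one] at h1
    exact h1.symm
  let g' : (⊤ : Subgroup H) := ⟨γ, Subgroup.mem_top γ⟩
  refine ⟨Representation.Equiv.mk (LinearEquiv.ofLinearMap (ρ.rep g'⁻¹) (ρ.rep g')
    (hinv _ _ (inv_mul_cancel g')) (hinv _ _ (mul_inv_cancel g'))) (fun g => ?_)⟩
  have e1 : (ρ.twist (MulAut.conjNormal γ)).rep g = ρ.rep (g' * g * g'⁻¹) := rfl
  have e2 : ρ.rep g'⁻¹ * ρ.rep (g' * g * g'⁻¹) = ρ.rep g * ρ.rep g'⁻¹ := by
    rw [← map_mul, ← map_mul]
    congr 1
    group
  rw [e1]
  exact e2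

theorem card_irr (p : ℕ) [Fact p.Prime] (k : Type v) [Field k] [IsAlgClosed k] [CharP k p]
    (H : Type u) [Group H] [Finite H] :
    Nat.card (IrrClass k H) = creg p (⊤ : Subgroup H) := by
  rw [← ibrInv_eq p k (⊤ : Subgroup H) (isPGroup_top p H)]
  unfold ibrInv
  refine (Nat.card_congr ((Equiv.subtypeUnivEquiv (fun c ρ _ => inv_top ρ)).trans
    ({ toFun := twistC (Subgroup.topEquiv (G := H)).symm
       invFun := twistC (Subgroup.topEquiv (G := H))
       left_inv := fun c => ?_
       right_inv := fun c => ?_ } : IrrClass k (⊤ : Subgroup H) ≃ IrrClass k H))).symm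
  · rw [twistC_twistC, MulEquiv.self_trans_symm, twistC_refl]
  · rw [twistC_twistC, MulEquiv.symm_trans_self, twistC_refl]

theorem weights_top (p : ℕ) (H : Type u) [Group H] :
    weights p (⊤ : Subgroup H) = wSum p {Q : Subgroup H | IsPGroup p Q} := by
  unfold weights
  have h : Theta p (⊤ : Subgroup H) = {Q : Subgroup H | IsPGroup p Q} := by
    ext Q
    simp [Theta]
  rw [h]

end Pool.Agent.NAW
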