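/-
NAW/Tog.lean.  Abstract cancellation of chains.  For a chain `c` and `b ∈ c` put
`L = c.filter (· < b)`; `b` is bad if `P b L`.  The smallest bad element `b` of `c` gives the element
`N = f b L`, and `c ↦ c.erase N` resp. `insert N c` is a sign reversing involution on the chains
with a bad element.
-/
import Pool.Agent.NAW.Defs

namespace Pool.Agent.NAW

section

open Classical

variable {α : Type*} [PartialOrder α]

/-- `b` is the smallest bad element of `c` -/
private def MinBad (P : α → Finset α → Prop) (c : Finset α) (b : α) : Prop :=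
  b ∈ c ∧ P b (c.filter (· < b)) ∧ ∀ a ∈ c, a < b → ¬ P a (c.filter (· < a))

private def Ch (S : Set α) (c : Finset α) : Prop :=
  c.Nonempty ∧ (∀ a ∈ c, a ∈ S) ∧ ∀ a ∈ c, ∀ b ∈ c, a ≤ b ∨ b ≤ a

private theorem mb_uniq {S : Set α} {P : α → Finset α → Prop} {c : Finset α} (hc : Ch S c)
    {b b' : α} (h : MinBad P c b) (h' : MinBad P c b') : b = b' := by
  rcases hc.2.2 b h.1 b' h'.1 with h1 | h1
  · by_contra hne
    exact h'.2.2 b h.1 (lt_of_le_of_ne h1 hne) h.2.1
  · by_contra hne
    exact h.2.2 b' h'.1 (lt_of_le_of_ne h1 (Ne.symm hne)) h'.2.1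

private theorem mb_exists {P : α → Finset α → Prop} {c : Finset α}
    (h : ∃ b ∈ c, P b (c.filter (· < b))) : ∃ b, MinBad P c b := by
  obtain ⟨b0, hb0, hP0⟩ := h
  have hne : (c.filter (fun b => P b (c.filter (· < b)))).Nonempty :=
    ⟨b0, Finset.mem_filter.2 ⟨hb0, hP0⟩⟩
  obtain ⟨b, hb, hmin⟩ := Finset.exists_minimal hne
  rw [Finset.mem_filter] at hb
  refine ⟨b, hb.1, hb.2, fun a ha hab hPa => ?_⟩
  have h1 := hmin (Finset.mem_filter.2 ⟨ha, hPa⟩) hab.le
  exact absurd (lt_of_lt_of_le hab h1) (lt_irrefl a)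

/-- adding or removing `N` -/
private noncomputable def tg (N : α) (c : Finset α) : Finset α :=
  if N ∈ c then c.erase N else insert N c

private theorem tg_tg (N : α) (c : Finset α) : tg N (tg N c) = c := by
  unfold tg
  by_cases h : N ∈ c
  · rw [if_pos h, if_neg (Finset.notMem_erase N c), Finset.insert_erase h]
  · rw [if_neg h, if_pos (Finset.mem_insert_self N c), Finset.erase_insert h]

private theorem tg_ne (N : α) (c : Finset α) : tg N c ≠ c := by
  unfold tg
  by_cases h : N ∈ c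
  · rw [if_pos h]
    intro h1
    rw [← h1] at h
    exact Finset.notMem_erase N c h
  · rw [if_neg h]
    intro h1
    apply h
    rw [← h1]
    exact Finset.mem_insert_self N c

private theorem tg_sg (N : α) (c : Finset α) : sg c + sg (tg N c) = 0 := by
  unfold tg
  by_cases h : N ∈ c
  · rw [if_pos h, sg_erase h, add_neg_cancel]
  · rw [if_neg h, sg_insert h, add_neg_cancel]

/-- the hypothesis for one chain -/
private def Hyp (S : Set α) (P : α → Finset α → Prop) (f : α → Finset α → α) : Prop :=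
  ∀ c : Finset α, (∀ a ∈ c, a ∈ S) → (∀ a ∈ c, ∀ b ∈ c, a ≤ b ∨ b ≤ a) → ∀ b ∈ c,
      (∀ a ∈ c, a < b → ¬ P a (c.filter (· < a))) → P b (c.filter (· < b)) →
      f b (c.filter (· < b)) ∈ S ∧ f b (c.filter (· < b)) < b ∧
      (∀ a ∈ c.filter (· < b), a ≤ f b (c.filter (· < b))) ∧
      ¬ P (f b (c.filter (· < b))) ((c.filter (· < b)).erase (f b (c.filter (· < b)))) ∧
      (P b (insert (f b (c.filter (· < b))) (c.filter (· < b))) ∧
        f b (insert (f b (c.filter (· < b))) (c.filter (· < b))) = f b (c.filter (· < b))) ∧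
      (P b ((c.filter (· < b)).erase (f b (c.filter (· < b)))) ∧
        f b ((c.filter (· < b)).erase (f b (c.filter (· < b)))) = f b (c.filter (· < b)))

private theorem tg_key {S : Set α} {P : α → Finset α → Prop} {f : α → Finset α → α}
    (H : Hyp S P f) {c : Finset α} (hc : Ch S c) {b N : α} (hb : MinBad P c b)
    (hN : f b (c.filter (· < b)) = N) :
    Ch S (tg N c) ∧ MinBad P (tg N c) b ∧ f b ((tg N c).filter (· < b)) = N := by
  obtain ⟨h1, h2, h3, h4, ⟨h5, h6⟩, h7, h8⟩ := H c hc.2.1 hc.2.2 b hb.1 hb.2.2 hb.2.1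
  rw [hN] at h1 h2 h3 h4 h5 h6 h7 h8
  unfold tg
  by_cases h : N ∈ c
  · rw [if_pos h]
    have hbc : b ∈ c.erase N := Finset.mem_erase.2 ⟨h2.ne', hb.1⟩
    have hL : (c.erase N).filter (· < b) = (c.filter (· < b)).erase N := by
      ext a
      rw [Finset.mem_filter, Finset.mem_erase, Finset.mem_erase, Finset.mem_filter, and_assoc]
    refine ⟨⟨⟨b, hbc⟩, fun a ha => hc.2.1 a (Finset.mem_of_mem_erase ha), fun a ha a' ha' =>
      hc.2.2 a (Finset.mem_of_mem_erase ha) a' (Finset.mem_of_mem_erase ha')⟩,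
      ⟨hbc, ?_, ?_⟩, ?_⟩
    · rw [hL]
      exact h7
    · intro a ha hab
      have ha' := Finset.mem_of_mem_erase ha
      have h9 : (c.erase N).filter (· < a) = c.filter (· < a) := by
        ext x
        rw [Finset.mem_filter, Finset.mem_filter, Finset.mem_erase]
        constructor
        · rintro ⟨⟨-, h10⟩, h11⟩
          exact ⟨h10, h11⟩
        · rintro ⟨h10, h11⟩
          refine ⟨⟨?_, h10⟩, h11⟩
          rintro rfl
          have h12 := h3 a (Finset.mem_filter.2 ⟨ha', hab⟩)
          exact absurd (lt_of_lt_of_le h11 h12) (lt_irrefl _)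
      rw [h9]
      exact hb.2.2 a ha' hab
    · rw [hL]
      exact h8
  · rw [if_neg h]
    have hbc : b ∈ insert N c := Finset.mem_insert_of_mem hb.1
    have hL : (insert N c).filter (· < b) = insert N (c.filter (· < b)) := by
      ext a
      rw [Finset.mem_filter, Finset.mem_insert, Finset.mem_insert, Finset.mem_filter]
      constructor
      · rintro ⟨rfl | h9, h10⟩
        · exact Or.inl rfl
        · exact Or.inr ⟨h9, h10⟩
      · rintro (rfl | ⟨h9, h10⟩)
        · exact ⟨Or.inl rfl, h2⟩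
        · exact ⟨Or.inr h9, h10⟩
    have hcmp : ∀ a ∈ c, a ≤ N ∨ N ≤ a := by
      intro a ha
      rcases hc.2.2 a ha b hb.1 with h9 | h9
      · rcases h9.lt_or_eq with h10 | h10
        · exact Or.inl (h3 a (Finset.mem_filter.2 ⟨ha, h10⟩))
        · exact Or.inr (by rw [h10]; exact h2.le)
      · exact Or.inr (h2.le.trans h9)
    refine ⟨⟨⟨b, hbc⟩, ?_, ?_⟩, ⟨hbc, ?_, ?_⟩, ?_⟩
    · intro a ha
      rcases Finset.mem_insert.1 ha with e1 | ha2
      · rw [e1]
        exact h1
      · exact hc.2.1 a ha2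
    · intro a ha a' ha'
      rcases Finset.mem_insert.1 ha with e1 | ha2
      · rcases Finset.mem_insert.1 ha' with e2 | ha2'
        · rw [e1, e2]
          exact Or.inl le_rfl
        · rw [e1]
          exact (hcmp a' ha2').symm
      · rcases Finset.mem_insert.1 ha' with e2 | ha2'
        · rw [e2]
          exact hcmp a ha2
        · exact hc.2.2 a ha2 a' ha2'
    · rw [hL]
      exact h5
    · intro a ha hab
      rcases Finset.mem_insert.1 ha with e1 | ha2
      · rw [e1]
        have h9 : (insert N c).filter (· < N) = (c.filter (· < b)).erase N := by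
          ext x
          rw [Finset.mem_filter, Finset.mem_insert, Finset.mem_erase, Finset.mem_filter]
          constructor
          · rintro ⟨h10 | h10, h11⟩
            · rw [h10] at h11
              exact absurd h11 (lt_irrefl _)
            · exact ⟨h11.ne, h10, h11.trans h2⟩
          · rintro ⟨h10, h11, h12⟩
            exact ⟨Or.inr h11, lt_of_le_of_ne (h3 x (Finset.mem_filter.2 ⟨h11, h12⟩)) h10⟩
        rw [h9]
        exact h4
      · have h9 : (insert N c).filter (· < a) = c.filter (· < a) := by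
          ext x
          rw [Finset.mem_filter, Finset.mem_filter, Finset.mem_insert]
          constructor
          · rintro ⟨h10 | h10, h11⟩
            · have h12 := h3 a (Finset.mem_filter.2 ⟨ha2, hab⟩)
              rw [h10] at h11
              exact absurd (lt_of_lt_of_le h11 h12) (lt_irrefl _)
            · exact ⟨h10, h11⟩
          · rintro ⟨h10, h11⟩
            exact ⟨Or.inr h10, h11⟩
        rw [h9]
        exact hb.2.2 a ha2 hab
    · rw [hL]
      exact h6

/-- the involution -/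
private noncomputable def tog (P : α → Finset α → Prop) (f : α → Finset α → α) (c : Finset α) :
    Finset α :=
  if h : ∃ b, MinBad P c b then tg (f h.choose (c.filter (· < h.choose))) c else c

private theorem tog_eq {S : Set α} {P : α → Finset α → Prop} {f : α → Finset α → α}
    {c : Finset α} (hc : Ch S c) {b : α} (hb : MinBad P c b) :
    tog P f c = tg (f b (c.filter (· < b))) c := by
  have h : ∃ b, MinBad P c b := ⟨b, hb⟩
  unfold tog
  rw [dif_pos h]
  have h1 : h.choose = b := mb_uniq hc h.choose_spec hb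
  rw [h1]

end

open Classical in
theorem toggle {α : Type*} [PartialOrder α] [Fintype α] (S : Set α)
    (P : α → Finset α → Prop) (f : α → Finset α → α)
    (H : ∀ c : Finset α, (∀ a ∈ c, a ∈ S) → (∀ a ∈ c, ∀ b ∈ c, a ≤ b ∨ b ≤ a) → ∀ b ∈ c,
      (∀ a ∈ c, a < b → ¬ P a (c.filter (· < a))) → P b (c.filter (· < b)) →
      f b (c.filter (· < b)) ∈ S ∧ f b (c.filter (· < b)) < b ∧
      (∀ a ∈ c.filter (· < b), a ≤ f b (c.filter (· < b))) ∧
      ¬ P (f b (c.filter (· < b))) ((c.filter (· < b)).erase (f b (c.filter (· < b)))) ∧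
      (P b (insert (f b (c.filter (· < b))) (c.filter (· < b))) ∧
        f b (insert (f b (c.filter (· < b))) (c.filter (· < b))) = f b (c.filter (· < b))) ∧
      (P b ((c.filter (· < b)).erase (f b (c.filter (· < b)))) ∧
        f b ((c.filter (· < b)).erase (f b (c.filter (· < b)))) = f b (c.filter (· < b)))) :
    ∑ c ∈ (Finset.univ : Finset (Finset α)).filter (fun c => c.Nonempty ∧ (∀ a ∈ c, a ∈ S) ∧
        ∀ a ∈ c, ∀ b ∈ c, a ≤ b ∨ b ≤ a), sg c =
      ∑ c ∈ (Finset.univ : Finset (Finset α)).filter (fun c => (c.Nonempty ∧ (∀ a ∈ c, a ∈ S) ∧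
        ∀ a ∈ c, ∀ b ∈ c, a ≤ b ∨ b ≤ a) ∧ ∀ b ∈ c, ¬ P b (c.filter (· < b))), sg c := by
  rw [← Finset.sum_filter_add_sum_filter_not ((Finset.univ : Finset (Finset α)).filter (fun c =>
    c.Nonempty ∧ (∀ a ∈ c, a ∈ S) ∧ ∀ a ∈ c, ∀ b ∈ c, a ≤ b ∨ b ≤ a))
    (fun c => ∀ b ∈ c, ¬ P b (c.filter (· < b)))]
  have h0 : ∑ c ∈ ((Finset.univ : Finset (Finset α)).filter (fun c => c.Nonempty ∧
      (∀ a ∈ c, a ∈ S) ∧ ∀ a ∈ c, ∀ b ∈ c, a ≤ b ∨ b ≤ a)).filter
      (fun c => ¬ ∀ b ∈ c, ¬ P b (c.filter (· < b))), sg c = 0 := by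
    have hmem : ∀ c, c ∈ ((Finset.univ : Finset (Finset α)).filter (fun c => c.Nonempty ∧
        (∀ a ∈ c, a ∈ S) ∧ ∀ a ∈ c, ∀ b ∈ c, a ≤ b ∨ b ≤ a)).filter
        (fun c => ¬ ∀ b ∈ c, ¬ P b (c.filter (· < b))) ↔ Ch S c ∧ ∃ b, MinBad P c b := by
      intro c
      rw [Finset.mem_filter, Finset.mem_filter]
      constructor
      · rintro ⟨⟨-, h1⟩, h2⟩
        refine ⟨h1, mb_exists ?_⟩
        by_contra h3
        apply h2
        intro b hb hP
        exact h3 ⟨b, hb, hP⟩
      · rintro ⟨h1, b, hb⟩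
        exact ⟨⟨Finset.mem_univ _, h1⟩, fun h2 => h2 b hb.1 hb.2.1⟩
    refine Finset.sum_involution (fun c _ => tog P f c) ?_ ?_ ?_ ?_
    · intro c hc
      obtain ⟨h1, b, hb⟩ := (hmem c).1 hc
      rw [tog_eq h1 hb]
      exact tg_sg _ _
    · intro c hc _
      obtain ⟨h1, b, hb⟩ := (hmem c).1 hc
      rw [tog_eq h1 hb]
      exact tg_ne _ _
    · intro c hc
      obtain ⟨h1, b, hb⟩ := (hmem c).1 hc
      rw [tog_eq h1 hb]
      obtain ⟨h2, h3, -⟩ := tg_key H h1 hb rfl
      exact (hmem _).2 ⟨h2, b, h3⟩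
    · intro c hc
      obtain ⟨h1, b, hb⟩ := (hmem c).1 hc
      obtain ⟨h2, h3, h4⟩ := tg_key H h1 hb rfl
      have e1 : tog P f c = tg (f b (c.filter (· < b))) c := tog_eq h1 hb
      show tog P f (tog P f c) = c
      rw [e1, tog_eq h2 h3, h4, tg_tg]
  rw [h0, add_zero, Finset.filter_filter]

end Pool.Agent.NAW
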