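/-
NAW/CTog.lean : retraction of the chains in `S` to the members contained in `Z` (signed count).
-/
import Pool.Agent.NAW.Tog

namespace Pool.Agent.NAW

open Pool.Agent.Nav

universe u

variable {Γ : Type u} [Group Γ] [Finite Γ]

theorem chn_retract (S : Set (Subgroup Γ)) (Z : Subgroup Γ) (hS : ∀ b ∈ S, b ⊓ Z ∈ S) :
    ∑ c ∈ CHs S, sg c = ∑ c ∈ CHs {Q | Q ∈ S ∧ Q ≤ Z}, sg c := by
  classical
  obtain ⟨P, hP⟩ : ∃ P : Subgroup Γ → Finset (Subgroup Γ) → Prop, ∀ b L, P b L ↔ ¬ b ≤ Z :=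
    ⟨fun b _ => ¬ b ≤ Z, fun _ _ => Iff.rfl⟩
  have h := toggle (α := Subgroup Γ) S P (fun b _ => b ⊓ Z) (by
    intro c hcS hch b hb hgood hbad
    have hbad' := (hP _ _).1 hbad
    refine ⟨hS b (hcS b hb), ?_, ?_, ?_, ⟨(hP _ _).2 hbad', rfl⟩, ⟨(hP _ _).2 hbad', rfl⟩⟩
    · exact lt_of_le_of_ne inf_le_left (fun h1 => hbad' (h1 ▸ inf_le_right))
    · intro a ha
      have ha := Finset.mem_filter.1 ha
      exact le_inf ha.2.le (not_not.1 (fun h2 => hgood a ha.1 ha.2 ((hP _ _).2 h2)))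
    · exact fun h2 => (hP _ _).1 h2 inf_le_right)
  refine Eq.trans (Finset.sum_congr ?_ fun _ _ => rfl)
    (h.trans (Finset.sum_congr ?_ fun _ _ => rfl))
  · ext c
    rw [mem_CHs, Finset.mem_filter]
    exact ⟨fun h => ⟨Finset.mem_univ _, h⟩, fun h => h.2⟩
  · ext c
    rw [mem_CHs, Finset.mem_filter]
    constructor
    · intro h
      exact ⟨h.2.1.1, fun a ha => ⟨h.2.1.2.1 a ha,
        not_not.1 (fun h2 => h.2.2 a ha ((hP _ _).2 h2))⟩, h.2.1.2.2⟩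
    · intro h
      exact ⟨Finset.mem_univ _, ⟨h.1, fun a ha => (h.2.1 a ha).1, h.2.2⟩,
        fun b hb h2 => (hP _ _).1 h2 (h.2.1 b hb).2⟩

end Pool.Agent.NAW
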