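/-
NAW/CopA.lean : a p'-element x which normalises the p-group R and maps the coset q R to itself fixes a
point of q R (coprime action; induction on the order of x).
-/
import Mathlib

namespace Pool.Agent.NAW

universe u

variable {Γ : Type u} [Group Γ] [Finite Γ]

omit [Finite Γ] in
private theorem pow_stab (x : Γ) (R : Subgroup Γ) (hn : ∀ r ∈ R, x * r * x⁻¹ ∈ R) (j : ℕ) :
    ∀ r ∈ R, x ^ j * r * (x ^ j)⁻¹ ∈ R := by
  induction j with
  | zero => intro r hr; simpa using hr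
  | succ j ih =>
    intro r hr
    have h := hn _ (ih r hr)
    have h2 : x ^ (j + 1) * r * (x ^ (j + 1))⁻¹ = x * (x ^ j * r * (x ^ j)⁻¹) * x⁻¹ := by
      rw [pow_succ']; group
    rw [h2]; exact h

omit [Finite Γ] in
private theorem pow_coset (x : Γ) (R : Subgroup Γ) (hn : ∀ r ∈ R, x * r * x⁻¹ ∈ R) (q : Γ)
    (hq : q⁻¹ * (x * q * x⁻¹) ∈ R) (j : ℕ) : q⁻¹ * (x ^ j * q * (x ^ j)⁻¹) ∈ R := by
  induction j with
  | zero => simp
  | succ j ih =>
    have h := R.mul_mem hq (hn _ ih)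
    have h2 : q⁻¹ * (x ^ (j + 1) * q * (x ^ (j + 1))⁻¹) =
        q⁻¹ * (x * q * x⁻¹) * (x * (q⁻¹ * (x ^ j * q * (x ^ j)⁻¹)) * x⁻¹) := by
      rw [pow_succ']; group
    rw [h2]; exact h

/-- the case of an element of prime power order -/
private theorem fix_prime (l a : ℕ) [Fact l.Prime] (y : Γ) (hy : y ^ l ^ a = 1) (R : Subgroup Γ)
    (hl : ¬ l ∣ Nat.card R) (hn : ∀ r ∈ R, y * r * y⁻¹ ∈ R) (q : Γ)
    (hq : q⁻¹ * (y * q * y⁻¹) ∈ R) : ∃ r ∈ R, y * (q * r) = (q * r) * y := by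
  classical
  have : Fintype R := Fintype.ofFinite R
  let f : R → R := fun r => ⟨(q⁻¹ * (y * q * y⁻¹)) * (y * r * y⁻¹), R.mul_mem hq (hn r r.2)⟩
  have hinj : Function.Injective f := by
    intro r s h
    have h1 := congrArg Subtype.val h
    simp only [f] at h1
    have h2 := mul_left_cancel h1
    exact Subtype.ext (mul_left_cancel (mul_right_cancel h2))
  let σ : Equiv.Perm R := Equiv.ofBijective f (Finite.injective_iff_bijective.1 hinj)
  have hσ : ∀ r : R, q * (σ r : Γ) = y * (q * r) * y⁻¹ := by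
    intro r
    change q * ((q⁻¹ * (y * q * y⁻¹)) * (y * r * y⁻¹)) = _
    group
  have hσj : ∀ (j : ℕ) (r : R), q * ((σ ^ j) r : Γ) = y ^ j * (q * r) * (y ^ j)⁻¹ := by
    intro j
    induction j with
    | zero => intro r; simp
    | succ j ih =>
      intro r
      rw [pow_succ', Equiv.Perm.mul_apply, hσ, ih, pow_succ']
      group
  have h1 : σ ^ l ^ a = 1 := by
    ext r
    have h2 := hσj (l ^ a) r
    rw [hy, one_mul, inv_one, mul_one] at h2
    exact mul_left_cancel h2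
  obtain ⟨r, hr⟩ := Equiv.Perm.exists_fixed_point_of_prime (p := l) (n := a)
    (by rwa [← Nat.card_eq_fintype_card]) h1
  refine ⟨r, r.2, ?_⟩
  have h2 := hσ r
  rw [hr] at h2
  exact (eq_mul_inv_iff_mul_eq.1 h2).symm

private theorem fix_aux (p : ℕ) [Fact p.Prime] (n : ℕ) : ∀ (x : Γ), orderOf x = n →
    ¬ p ∣ orderOf x → ∀ (R : Subgroup Γ), IsPGroup p R → (∀ r ∈ R, x * r * x⁻¹ ∈ R) → ∀ (q : Γ),
    q⁻¹ * (x * q * x⁻¹) ∈ R → ∃ r ∈ R, x * (q * r) = (q * r) * x := by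
  induction n using Nat.strong_induction_on with
  | _ n ih =>
    intro x hxn hx R hR hn q hq
    by_cases h1 : n = 1
    · rw [h1, orderOf_eq_one_iff] at hxn
      exact ⟨1, R.one_mem, by rw [hxn]; simp⟩
    have hn0 : n ≠ 0 := by rw [← hxn]; exact (orderOf_pos x).ne'
    obtain ⟨l, hl, hln⟩ := Nat.exists_prime_and_dvd h1
    have : Fact l.Prime := ⟨hl⟩
    obtain ⟨a, m, hlm, hnm⟩ := Nat.exists_eq_pow_mul_and_not_dvd hn0 l hl.ne_one
    have ha : a ≠ 0 := by
      rintro rfl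
      rw [pow_zero, one_mul] at hnm
      exact hlm (hnm ▸ hln)
    have hm0 : m ≠ 0 := by
      rintro rfl
      exact hn0 (by rw [hnm, mul_zero])
    have hla : 1 < l ^ a := Nat.one_lt_pow ha hl.one_lt
    have hmn : m < n := by
      rw [hnm]
      exact (Nat.lt_mul_iff_one_lt_left (Nat.pos_of_ne_zero hm0)).2 hla
    have hcop : Nat.Coprime m (l ^ a) :=
      (Nat.Coprime.pow_right a ((Nat.Prime.coprime_iff_not_dvd hl).2 hlm).symm)
    have hlp : l ≠ p := by
      rintro rfl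
      exact hx (hxn ▸ hln)
    have hlR : ¬ l ∣ Nat.card R := by
      obtain ⟨k, hk⟩ := IsPGroup.iff_card.1 hR
      rw [hk]
      intro h2
      exact hlp ((Nat.prime_dvd_prime_iff_eq hl Fact.out).1 (hl.dvd_of_dvd_pow h2))
    have hy : (x ^ m) ^ l ^ a = 1 := by
      rw [← pow_mul, mul_comm, ← hnm, ← hxn, pow_orderOf_eq_one]
    obtain ⟨r₁, hr₁, hc₁⟩ := fix_prime l a (x ^ m) hy R hlR (pow_stab x R hn m) q
      (pow_coset x R hn q hq m)
    have hz : orderOf (x ^ l ^ a) = m := by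
      rw [orderOf_pow, hxn, hnm, Nat.gcd_eq_right (Dvd.intro _ rfl)]
      exact Nat.mul_div_cancel_left m (by positivity)
    have hyz : x ^ m * x ^ l ^ a = x ^ l ^ a * x ^ m := by
      rw [← pow_add, ← pow_add, add_comm]
    have hzp : ¬ p ∣ orderOf (x ^ l ^ a) := by
      rw [hz]
      intro h2
      apply hx
      rw [hxn, hnm]
      exact h2.mul_left _
    have e1 : Commute (x ^ m) (x ^ l ^ a) := hyz
    have e2 : Commute (x ^ m) (q * r₁) := hc₁
    obtain ⟨r₂, hr₂, hc₂⟩ := ih m hmn (x ^ l ^ a) hz hzp (R ⊓ Subgroup.centralizer {x ^ m})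
      (hR.to_le inf_le_left) (by
        intro r hr
        refine ⟨pow_stab x R hn _ r hr.1, ?_⟩
        have hr2 := Subgroup.mem_centralizer_singleton_iff.1 hr.2
        refine Subgroup.mem_centralizer_singleton_iff.2 ?_
        have e3 : Commute (x ^ m) r := hr2.symm
        exact ((e1.mul_right e3).mul_right e1.inv_right).eq.symm) (q * r₁) (by
        refine ⟨?_, ?_⟩
        · have h2 := R.mul_mem (R.mul_mem (R.inv_mem hr₁) (pow_coset x R hn q hq (l ^ a)))
            (pow_stab x R hn (l ^ a) r₁ hr₁)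
          have h3 : (q * r₁)⁻¹ * (x ^ l ^ a * (q * r₁) * (x ^ l ^ a)⁻¹) =
              r₁⁻¹ * (q⁻¹ * (x ^ l ^ a * q * (x ^ l ^ a)⁻¹)) *
                (x ^ l ^ a * r₁ * (x ^ l ^ a)⁻¹) := by
            group
          rw [h3]
          exact h2
        · refine Subgroup.mem_centralizer_singleton_iff.2 ?_
          exact (e2.inv_right.mul_right ((e1.mul_right e2).mul_right e1.inv_right)).eq.symm)
    refine ⟨r₁ * r₂, R.mul_mem hr₁ hr₂.1, ?_⟩
    have e4 : Commute (x ^ m) r₂ := (Subgroup.mem_centralizer_singleton_iff.1 hr₂.2).symm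
    have e5 : Commute (x ^ m) (q * r₁ * r₂) := e2.mul_right e4
    have e6 : Commute (x ^ l ^ a) (q * r₁ * r₂) := hc₂
    have hb := Nat.gcd_eq_gcd_ab m (l ^ a)
    rw [hcop] at hb
    have hxx : x = (x ^ m) ^ (Nat.gcdA m (l ^ a)) * (x ^ l ^ a) ^ (Nat.gcdB m (l ^ a)) := by
      rw [← zpow_natCast x m, ← zpow_natCast x (l ^ a), ← zpow_mul, ← zpow_mul, ← zpow_add, ← hb]
      simp
    have e7 : Commute x (q * r₁ * r₂) := by
      rw [hxx]
      exact (e5.zpow_left _).mul_left (e6.zpow_left _)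
    rw [← mul_assoc q r₁ r₂]
    exact e7.eq

theorem fix_coset (p : ℕ) [Fact p.Prime] (x : Γ) (hx : ¬ p ∣ orderOf x) (R : Subgroup Γ)
    (hR : IsPGroup p R) (hn : ∀ r ∈ R, x * r * x⁻¹ ∈ R) (q : Γ)
    (hq : q⁻¹ * (x * q * x⁻¹) ∈ R) : ∃ r ∈ R, x * (q * r) = (q * r) * x :=
  fix_aux p (orderOf x) x rfl hx R hR hn q hq

end Pool.Agent.NAW
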