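/-
NAW/CopB.lean.  Coprime action on Q / (Q ∩ G): Q ∩ C(x) is again in Theta.
-/
import Pool.Agent.NAW.Defs
import Pool.Agent.NAW.CopA

namespace Pool.Agent.NAW

open Pool.Agent.Nav

universe u

variable {Γ : Type u} [Group Γ] [Finite Γ]

theorem theta_cent (p : ℕ) [Fact p.Prime] (G : Subgroup Γ) [G.Normal] (x : Γ) (hxG : x ∈ G)
    (hx : ¬ p ∣ orderOf x) (Q : Subgroup Γ) (hQ : Q ∈ Theta p G) (hn : x ∈ Nm Q) :
    Q ⊓ Subgroup.centralizer {x} ∈ Theta p G := by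
  have hG : G.Normal := inferInstance
  have hxn : ∀ r, r ∈ Q ↔ x * r * x⁻¹ ∈ Q := Subgroup.mem_normalizer_iff.1 hn
  obtain ⟨hQp, hQG⟩ := hQ
  have h1 : Q ≤ G ⊔ (Q ⊓ Subgroup.centralizer {x}) := by
    intro q hq
    have h2 : q⁻¹ * (x * q * x⁻¹) ∈ Q ⊓ G := by
      refine Subgroup.mem_inf.2 ⟨Q.mul_mem (Q.inv_mem hq) ((hxn q).1 hq), ?_⟩
      have h3 : q⁻¹ * (x * q * x⁻¹) = (q⁻¹ * x * (q⁻¹)⁻¹) * x⁻¹ := by group
      rw [h3]
      exact G.mul_mem (hG.conj_mem x hxG q⁻¹) (G.inv_mem hxG)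
    obtain ⟨r, hr, h3⟩ := fix_coset p x hx (Q ⊓ G) (hQp.to_le inf_le_left) (fun r hr => by
      obtain ⟨h4, h5⟩ := Subgroup.mem_inf.1 hr
      exact Subgroup.mem_inf.2 ⟨(hxn r).1 h4, hG.conj_mem r h5 x⟩) q h2
    obtain ⟨h4, h5⟩ := Subgroup.mem_inf.1 hr
    have h6 : q * r ∈ Q ⊓ Subgroup.centralizer {x} := by
      refine Subgroup.mem_inf.2 ⟨Q.mul_mem hq h4, ?_⟩
      rw [Subgroup.mem_centralizer_iff]
      intro y hy
      rw [Set.mem_singleton_iff.1 hy]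
      exact h3
    have h7 : q = (q * r) * r⁻¹ := by group
    rw [h7]
    exact Subgroup.mul_mem _ (Subgroup.mem_sup_right h6) (Subgroup.mem_sup_left (G.inv_mem h5))
  refine ⟨hQp.to_le inf_le_left, ?_⟩
  rw [eq_top_iff, ← hQG]
  exact sup_le le_sup_left h1

end Pool.Agent.NAW
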