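/-
NAW/IntA.lean.  Interchange of summation: commuting pairs and normal chains.
-/
import Pool.Agent.NAW.Defs

namespace Pool.Agent.NAW

open Pool.Agent.Nav

universe u

variable {Γ : Type u} [Group Γ] [Fintype Γ]

open Classical in
private theorem inta_prN (p : ℕ) (N : Subgroup Γ) :
    (prN p N : ℤ) = ∑ x ∈ (Finset.univ : Finset Γ).filter (fun x => ¬ p ∣ orderOf x),
      ∑ y ∈ (Finset.univ : Finset Γ).filter (fun y => y ∈ Subgroup.centralizer {x}),
        if x ∈ N ∧ y ∈ N then 1 else 0 := by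
  unfold prN
  rw [Nat.card_eq_fintype_card, Fintype.card_subtype, Finset.card_filter]
  push_cast
  rw [Fintype.sum_prod_type, Finset.sum_filter]
  refine Finset.sum_congr rfl fun x _ => ?_
  rw [Finset.sum_filter]
  by_cases h : ¬ p ∣ orderOf x
  · rw [if_pos h]
    refine Finset.sum_congr rfl fun y _ => ?_
    rw [Subgroup.mem_centralizer_singleton_iff]
    by_cases h1 : y * x = x * y
    · rw [if_pos h1]
      by_cases h2 : x ∈ N ∧ y ∈ N
      · rw [if_pos h2, if_pos ⟨h2.1, h2.2, h, h1.symm⟩]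
      · rw [if_neg h2, if_neg (fun h3 => h2 ⟨h3.1, h3.2.1⟩)]
    · rw [if_neg h1, if_neg (fun h3 => h1 h3.2.2.2.symm)]
  · rw [if_neg h]
    refine Finset.sum_eq_zero fun y _ => ?_
    rw [if_neg (fun h3 => h h3.2.2.1)]

open Classical in
private theorem inta_filter (S : Set (Subgroup Γ)) (x y : Γ) :
    (NCs S).filter (fun c => x ∈ Nz c ∧ y ∈ Nz c) =
      NCs {Q | Q ∈ S ∧ x ∈ Nm Q ∧ y ∈ Nm Q} := by
  ext c
  rw [Finset.mem_filter, mem_NCs, mem_NCs, mem_Nz, mem_Nz]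
  unfold IsNC IsChn
  constructor
  · rintro ⟨⟨⟨h1, h2, h3⟩, h4⟩, h5, h6⟩
    exact ⟨⟨h1, fun Q hQ => ⟨h2 Q hQ, h5 Q hQ, h6 Q hQ⟩, h3⟩, h4⟩
  · rintro ⟨⟨h1, h2, h3⟩, h4⟩
    exact ⟨⟨⟨h1, fun Q hQ => (h2 Q hQ).1, h3⟩, h4⟩, fun Q hQ => (h2 Q hQ).2.1,
      fun Q hQ => (h2 Q hQ).2.2⟩

open Classical in
theorem sum_prN (p : ℕ) (S : Set (Subgroup Γ)) :
    ∑ c ∈ NCs S, sg c * (prN p (Nz c) : ℤ) =
      ∑ x ∈ (Finset.univ : Finset Γ).filter (fun x => ¬ p ∣ orderOf x),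
        ∑ y ∈ (Finset.univ : Finset Γ).filter (fun y => y ∈ Subgroup.centralizer {x}),
          ∑ c ∈ NCs {Q | Q ∈ S ∧ x ∈ Nm Q ∧ y ∈ Nm Q}, sg c := by
  have h1 : ∀ c ∈ NCs S, sg c * (prN p (Nz c) : ℤ) =
      ∑ x ∈ (Finset.univ : Finset Γ).filter (fun x => ¬ p ∣ orderOf x),
        ∑ y ∈ (Finset.univ : Finset Γ).filter (fun y => y ∈ Subgroup.centralizer {x}),
          if x ∈ Nz c ∧ y ∈ Nz c then sg c else 0 := by
    intro c _
    rw [inta_prN, Finset.mul_sum]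
    refine Finset.sum_congr rfl fun x _ => ?_
    rw [Finset.mul_sum]
    refine Finset.sum_congr rfl fun y _ => ?_
    split_ifs
    · rw [mul_one]
    · rw [mul_zero]
  rw [Finset.sum_congr rfl h1, Finset.sum_comm]
  refine Finset.sum_congr rfl fun x _ => ?_
  rw [Finset.sum_comm]
  refine Finset.sum_congr rfl fun y _ => ?_
  rw [← inta_filter, Finset.sum_filter]

end Pool.Agent.NAW
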