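/-
NAW/IntB.lean : interchange of summation for the elements `y` of `C`.
-/
import Pool.Agent.NAW.Defs

namespace Pool.Agent.NAW

open Pool.Agent.Nav

universe u

variable {Γ : Type u} [Group Γ] [Fintype Γ]

open Classical in
theorem sum_card (C : Subgroup Γ) (S : Set (Subgroup Γ)) :
    ∑ y ∈ (Finset.univ : Finset Γ).filter (fun y => y ∈ C), ∑ c ∈ NCs {Q | Q ∈ S ∧ y ∈ Nm Q}, sg c =
      ∑ c ∈ NCs S, sg c * (Nat.card (C ⊓ Nz c : Subgroup Γ) : ℤ) := by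
  have h1 : ∀ y : Γ, ∑ c ∈ NCs {Q | Q ∈ S ∧ y ∈ Nm Q}, sg c =
      ∑ c ∈ NCs S, if y ∈ Nz c then sg c else 0 := by
    intro y
    rw [← Finset.sum_filter]
    refine Finset.sum_congr ?_ fun _ _ => rfl
    ext c
    rw [Finset.mem_filter, mem_NCs, mem_NCs, mem_Nz]
    constructor
    · intro h
      exact ⟨⟨⟨h.1.1, fun Q hQ => (h.1.2.1 Q hQ).1, h.1.2.2⟩, h.2⟩, fun Q hQ => (h.1.2.1 Q hQ).2⟩
    · intro h
      exact ⟨⟨h.1.1.1, fun Q hQ => ⟨h.1.1.2.1 Q hQ, h.2 Q hQ⟩, h.1.1.2.2⟩, h.1.2⟩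
  rw [Finset.sum_congr rfl (fun y _ => h1 y), Finset.sum_comm]
  refine Finset.sum_congr rfl fun c _ => ?_
  rw [← Finset.sum_filter, Finset.sum_const, Finset.filter_filter, nsmul_eq_mul, mul_comm]
  congr 2
  rw [Nat.card_eq_fintype_card, Fintype.card_subtype]
  refine congrArg Finset.card ?_
  ext y
  rw [Finset.mem_filter, Finset.mem_filter, Subgroup.mem_inf]

end Pool.Agent.NAW
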