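/-
NAW/NTog.lean.  The signed number of chains is the signed number of normal chains, by the
cancellation of Tog.lean with the condition `b ≤ Nz L` (`L` the part of the chain below `b`).
-/
import Pool.Agent.NAW.Tog

namespace Pool.Agent.NAW

open Pool.Agent.Nav

universe u

variable {Γ : Type u} [Group Γ] [Finite Γ]

private theorem nt_anti {L L' : Finset (Subgroup Γ)} (h : L ⊆ L') : Nz L' ≤ Nz L :=
  fun _ hx => mem_Nz.2 fun Q hQ => mem_Nz.1 hx Q (h hQ)

private theorem nt_le_Nm (Q : Subgroup Γ) : Q ≤ Nm Q := Subgroup.le_normalizer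

private theorem nt_iff {M N : Subgroup Γ} (h1 : N ≤ M) {x : M}
    (hx : ∀ h : M, h ∈ N.subgroupOf M ↔ x * h * x⁻¹ ∈ N.subgroupOf M) (y : Γ) :
    y ∈ N ↔ (x : Γ) * y * (x : Γ)⁻¹ ∈ N := by
  constructor
  · intro hy
    have h5 := (hx ⟨y, h1 hy⟩).1 (Subgroup.mem_subgroupOf.2 hy)
    exact Subgroup.mem_subgroupOf.1 h5
  · intro hy
    have hyM : y ∈ M := by
      have h6 : (x : Γ) * y * (x : Γ)⁻¹ ∈ M := h1 hy
      have h7 := M.mul_mem (M.mul_mem (M.inv_mem x.2) h6) x.2
      have h8 : (x : Γ)⁻¹ * ((x : Γ) * y * (x : Γ)⁻¹) * (x : Γ) = y := by group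
      rwa [h8] at h7
    have h5 := (hx ⟨y, hyM⟩).2 (Subgroup.mem_subgroupOf.2 hy)
    exact Subgroup.mem_subgroupOf.1 h5

private theorem nt_nilp {p : ℕ} [Fact p.Prime] {M N : Subgroup Γ} (hM : IsPGroup p M) (h1 : N ≤ M)
    (h2 : M ⊓ Nm N ≤ N) : M = N := by
  by_contra hne
  have hnil : Group.IsNilpotent M := hM.isNilpotent
  have hc := Group.normalizerCondition_of_isNilpotent (G := M)
  have hlt : N.subgroupOf M < ⊤ := by
    refine lt_top_iff_ne_top.2 fun h3 => ?_
    rw [Subgroup.subgroupOf_eq_top] at h3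
    exact hne (le_antisymm h3 h1)
  have h4 := hc _ hlt
  obtain ⟨x, hx, hxn⟩ := SetLike.exists_of_lt h4
  apply hxn
  rw [Subgroup.mem_subgroupOf]
  apply h2
  have hg : (x : Γ) ∈ Nm N := by
    rw [Subgroup.mem_normalizer_iff] at hx ⊢
    exact nt_iff h1 hx
  exact ⟨x.2, hg⟩

private def NtBad (b : Subgroup Γ) (L : Finset (Subgroup Γ)) : Prop := ¬ b ≤ Nz L

theorem chn_eq_nc (p : ℕ) [Fact p.Prime] (S : Set (Subgroup Γ)) (hp : ∀ Q ∈ S, IsPGroup p Q)
    (hS : ∀ b ∈ S, ∀ L : Finset (Subgroup Γ), L.Nonempty → (∀ a ∈ L, a ∈ S) →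
      (∀ a ∈ L, a ≤ b ⊓ Nz L) → b ⊓ Nz L ∈ S) :
    ∑ c ∈ CHs S, sg c = ∑ c ∈ NCs S, sg c := by
  classical
  have key := toggle (α := Subgroup Γ) S NtBad (fun b L => b ⊓ Nz L) (by
    intro c hcS hch b hb hgood hbad
    unfold NtBad at hgood hbad ⊢
    set L : Finset (Subgroup Γ) := c.filter (· < b) with hL
    have hLmem : ∀ a, a ∈ L ↔ a ∈ c ∧ a < b := fun a => by rw [hL, Finset.mem_filter]
    have hLne : L.Nonempty := by
      rw [Finset.nonempty_iff_ne_empty]
      intro h0
      apply hbad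
      intro x _
      rw [mem_Nz, h0]
      intro Q hQ
      exact absurd hQ (Finset.notMem_empty Q)
    have hLN : ∀ a ∈ L, a ≤ b ⊓ Nz L := by
      intro a ha
      refine le_inf ((hLmem a).1 ha).2.le ?_
      intro x hx
      rw [mem_Nz]
      intro a' ha'
      by_cases hlt : a' < a
      · have h1 := not_not.1 (hgood a ((hLmem a).1 ha).1 ((hLmem a).1 ha).2)
        exact mem_Nz.1 (h1 hx) a' (Finset.mem_filter.2 ⟨((hLmem a').1 ha').1, hlt⟩)
      · have h1 : a ≤ a' := by
          rcases hch a ((hLmem a).1 ha).1 a' ((hLmem a').1 ha').1 with h1 | h1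
          · exact h1
          · rcases eq_or_lt_of_le h1 with h2 | h2
            · exact h2.ge
            · exact absurd h2 hlt
        exact nt_le_Nm a' (h1 hx)
    have hNS : b ⊓ Nz L ∈ S := hS b (hcS b hb) L hLne (fun a ha => hcS a ((hLmem a).1 ha).1) hLN
    have hNb : b ⊓ Nz L < b := by
      refine lt_of_le_of_ne inf_le_left fun h1 => hbad ?_
      exact inf_eq_left.1 h1
    set N : Subgroup Γ := b ⊓ Nz L with hN
    refine ⟨hNS, hNb, hLN, not_not.2 ?_, ⟨?_, ?_⟩, ?_⟩
    · exact le_trans inf_le_right (nt_anti (Finset.erase_subset _ _))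
    · intro h1
      exact hbad (h1.trans (nt_anti (Finset.subset_insert _ _)))
    · refine le_antisymm (inf_le_inf le_rfl (nt_anti (Finset.subset_insert _ _))) ?_
      refine le_inf inf_le_left ?_
      intro x hx
      rw [mem_Nz]
      intro Q hQ
      rcases Finset.mem_insert.1 hQ with rfl | hQ
      · exact nt_le_Nm _ hx
      · exact mem_Nz.1 hx.2 Q hQ
    · by_cases hNL : N ∈ L
      · have hM : b ⊓ Nz (L.erase N) = N := by
          refine nt_nilp (p := p) ?_ ?_ ?_
          · exact (hp b (hcS b hb)).to_le inf_le_left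
          · exact inf_le_inf le_rfl (nt_anti (Finset.erase_subset _ _))
          · rintro x ⟨⟨hx1, hx2⟩, hx3⟩
            refine ⟨hx1, ?_⟩
            show x ∈ Nz L
            rw [mem_Nz]
            intro Q hQ
            by_cases hQN : Q = N
            · rw [hQN]
              exact hx3
            · exact mem_Nz.1 hx2 Q (Finset.mem_erase.2 ⟨hQN, hQ⟩)
        refine ⟨?_, hM⟩
        intro h1
        rw [inf_eq_left.2 h1] at hM
        exact hNb.ne hM.symm
      · rw [Finset.erase_eq_of_notMem hNL]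
        exact ⟨hbad, rfl⟩)
  refine (Finset.sum_congr ?_ fun _ _ => rfl).trans
    (key.trans (Finset.sum_congr ?_ fun _ _ => rfl))
  · ext c
    refine Iff.trans ?_ (@Finset.mem_filter _ _ _ _ _).symm
    rw [mem_CHs]
    exact ⟨fun h => ⟨Finset.mem_univ c, h⟩, fun h => h.2⟩
  · ext c
    refine (@Finset.mem_filter _ _ _ _ _).trans ?_
    rw [mem_NCs]
    constructor
    · rintro ⟨-, hc, hn⟩
      refine ⟨hc, fun b hb x hx => ?_⟩
      rw [mem_Nz]
      intro a ha
      by_cases hlt : a < b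
      · exact mem_Nz.1 (not_not.1 (hn b hb) hx) a (Finset.mem_filter.2 ⟨ha, hlt⟩)
      · have h3 : b ≤ a := by
          rcases hc.2.2 b hb a ha with h3 | h3
          · exact h3
          · rcases eq_or_lt_of_le h3 with h4 | h4
            · exact h4.ge
            · exact absurd h4 hlt
        exact nt_le_Nm a (h3 hx)
    · rintro ⟨hc, hn⟩
      refine ⟨Finset.mem_univ c, hc, fun b hb => not_not.2 ?_⟩
      exact (hn b hb).trans (nt_anti (Finset.filter_subset _ _))

end Pool.Agent.NAW
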