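/-
NAW/Loc.lean (job NAW-Loc).  For commuting x, y with x p-regular in G: the signed number of
normal chains of Theta stable under x and y equals the signed number of those centralised by x
and stable under y.
-/
import Pool.Agent.NAW.NTog
import Pool.Agent.NAW.CTog
import Pool.Agent.NAW.CopB

namespace Pool.Agent.NAW

open Pool.Agent.Nav

universe u

variable {Γ : Type u} [Group Γ] [Finite Γ]

omit [Finite Γ] in
private theorem mem_Nm {Q : Subgroup Γ} {g : Γ} : g ∈ Nm Q ↔ ∀ h, h ∈ Q ↔ g * h * g⁻¹ ∈ Q :=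
  Subgroup.mem_normalizer_iff

omit [Finite Γ] in
private theorem le_Nm (Q : Subgroup Γ) : Q ≤ Nm Q := Subgroup.le_normalizer

omit [Finite Γ] in
private theorem Nm_inf {A B : Subgroup Γ} {g : Γ} (hA : g ∈ Nm A) (hB : g ∈ Nm B) :
    g ∈ Nm (A ⊓ B) := by
  rw [mem_Nm] at hA hB ⊢
  intro h
  rw [Subgroup.mem_inf, Subgroup.mem_inf, hA h, hB h]

omit [Finite Γ] in
private theorem Nm_Nz {L : Finset (Subgroup Γ)} {g : Γ} (hL : ∀ a ∈ L, g ∈ Nm a) :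
    g ∈ Nm (Nz L) := by
  rw [mem_Nm]
  intro h
  rw [mem_Nz, mem_Nz]
  refine forall₂_congr fun a ha => ?_
  exact mem_Nm.1 (le_Nm (Nm a) (hL a ha)) h

omit [Finite Γ] in
private theorem theta_meet {p : ℕ} {G : Subgroup Γ} {b : Subgroup Γ} (hb : b ∈ Theta p G)
    {L : Finset (Subgroup Γ)} (hL : L.Nonempty) (hLT : ∀ a ∈ L, a ∈ Theta p G)
    (hLb : ∀ a ∈ L, a ≤ b ⊓ Nz L) : b ⊓ Nz L ∈ Theta p G := by
  refine ⟨hb.1.to_le inf_le_left, ?_⟩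
  obtain ⟨a, ha⟩ := hL
  rw [eq_top_iff, ← (hLT a ha).2]
  exact sup_le_sup_left (hLb a ha) G

theorem loc_xy (p : ℕ) [Fact p.Prime] (G : Subgroup Γ) [G.Normal] (x y : Γ) (hxG : x ∈ G)
    (hx : ¬ p ∣ orderOf x) (hxy : x * y = y * x) :
    ∑ c ∈ NCs {Q | Q ∈ Theta p G ∧ x ∈ Nm Q ∧ y ∈ Nm Q}, sg c =
      ∑ c ∈ NCs {Q | Q ∈ Theta p G ∧ Q ≤ Subgroup.centralizer {x} ∧ y ∈ Nm Q}, sg c := by
  have hxZ : x ∈ Subgroup.centralizer {x} := Subgroup.mem_centralizer_singleton_iff.2 rfl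
  have hyZ : y ∈ Subgroup.centralizer {x} := Subgroup.mem_centralizer_singleton_iff.2 hxy.symm
  have h1 : ∑ c ∈ CHs {Q | Q ∈ Theta p G ∧ x ∈ Nm Q ∧ y ∈ Nm Q}, sg c =
      ∑ c ∈ NCs {Q | Q ∈ Theta p G ∧ x ∈ Nm Q ∧ y ∈ Nm Q}, sg c := by
    refine chn_eq_nc p _ (fun Q hQ => hQ.1.1) ?_
    intro b hb L hL hLS hLb
    exact ⟨theta_meet hb.1 hL (fun a ha => (hLS a ha).1) hLb,
      Nm_inf hb.2.1 (Nm_Nz fun a ha => (hLS a ha).2.1),
      Nm_inf hb.2.2 (Nm_Nz fun a ha => (hLS a ha).2.2)⟩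
  have h2 : ∑ c ∈ CHs {Q | Q ∈ Theta p G ∧ x ∈ Nm Q ∧ y ∈ Nm Q}, sg c =
      ∑ c ∈ CHs {Q | Q ∈ {Q | Q ∈ Theta p G ∧ x ∈ Nm Q ∧ y ∈ Nm Q} ∧
        Q ≤ Subgroup.centralizer {x}}, sg c := by
    refine chn_retract _ _ ?_
    intro b hb
    exact ⟨theta_cent p G x hxG hx b hb.1 hb.2.1, Nm_inf hb.2.1 (le_Nm _ hxZ),
      Nm_inf hb.2.2 (le_Nm _ hyZ)⟩
  have h3 : {Q | Q ∈ {Q | Q ∈ Theta p G ∧ x ∈ Nm Q ∧ y ∈ Nm Q} ∧
        Q ≤ Subgroup.centralizer {x}} =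
      {Q | Q ∈ Theta p G ∧ Q ≤ Subgroup.centralizer {x} ∧ y ∈ Nm Q} := by
    ext Q
    constructor
    · rintro ⟨⟨q1, -, q2⟩, q3⟩
      exact ⟨q1, q3, q2⟩
    · rintro ⟨q1, q3, q2⟩
      refine ⟨⟨q1, ?_, q2⟩, q3⟩
      rw [mem_Nm]
      intro h
      constructor
      · intro hh
        have h4 := Subgroup.mem_centralizer_singleton_iff.1 (q3 hh)
        rwa [← h4, mul_inv_cancel_right]
      · intro hh
        have h4 := Subgroup.mem_centralizer_singleton_iff.1 (q3 hh)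
        have h5 : x * h * x⁻¹ = h := by
          have h6 : x * h = x * (x * h * x⁻¹) := by
            rw [← h4, inv_mul_cancel_right]
          have h7 := mul_left_cancel h6
          exact h7.symm
        rwa [h5] at hh
  have h4 : ∑ c ∈ CHs {Q | Q ∈ Theta p G ∧ Q ≤ Subgroup.centralizer {x} ∧ y ∈ Nm Q}, sg c =
      ∑ c ∈ NCs {Q | Q ∈ Theta p G ∧ Q ≤ Subgroup.centralizer {x} ∧ y ∈ Nm Q}, sg c := by
    refine chn_eq_nc p _ (fun Q hQ => hQ.1.1) ?_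
    intro b hb L hL hLS hLb
    exact ⟨theta_meet hb.1 hL (fun a ha => (hLS a ha).1) hLb, inf_le_left.trans hb.2.1,
      Nm_inf hb.2.2 (Nm_Nz fun a ha => (hLS a ha).2.2)⟩
  rw [← h1, h2, h3, h4]

end Pool.Agent.NAW
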