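/-
NAW/SylA.lean.  Facts on Sylow subgroups of a subgroup `N`, in terms of `IsSyl`.
-/
import Pool.Agent.NAW.Defs

namespace Pool.Agent.NAW

open Pool.Agent.Nav

universe u

variable {Γ : Type u} [Group Γ] [Finite Γ]

omit [Finite Γ] in
private theorem isSyl_map (p : ℕ) (N : Subgroup Γ) (Q : Sylow p N) :
    IsSyl p N (Q.toSubgroup.map N.subtype) := by
  refine ⟨Q.isPGroup'.map _, Subgroup.map_subtype_le _, fun T' hT' hN hQ => ?_⟩
  have h1 : IsPGroup p (T'.subgroupOf N) := hT'.comap_subtype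
  have h2 : Q.toSubgroup ≤ T'.subgroupOf N := by
    intro x hx
    exact hQ (Subgroup.mem_map_of_mem N.subtype hx)
  have h3 := Q.is_maximal' h1 h2
  rw [← h3, Subgroup.subgroupOf_map_subtype, inf_eq_left.2 hN]

omit [Finite Γ] in
private theorem isSyl_comap (p : ℕ) (N T : Subgroup Γ) (hT : IsSyl p N T) :
    ∃ Q : Sylow p N, Q.toSubgroup.map N.subtype = T := by
  obtain ⟨h1, h2, h3⟩ := hT
  refine ⟨⟨T.subgroupOf N, h1.comap_subtype, ?_⟩, ?_⟩
  · intro Q hQ hle
    have h4 : T ≤ Q.map N.subtype := by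
      intro x hx
      exact ⟨⟨x, h2 hx⟩, hle (show (⟨x, h2 hx⟩ : N) ∈ T.subgroupOf N from hx), rfl⟩
    have h5 := h3 (Q.map N.subtype) (hQ.map _) (Subgroup.map_subtype_le _) h4
    ext x
    constructor
    · intro hx
      have h6 : (x : Γ) ∈ Q.map N.subtype := Subgroup.mem_map_of_mem N.subtype hx
      rw [h5] at h6
      exact h6
    · intro hx
      exact hle hx
  · change (T.subgroupOf N).map N.subtype = T
    rw [Subgroup.subgroupOf_map_subtype, inf_eq_left.2 h2]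

omit [Finite Γ] in
private theorem norm_map (N : Subgroup Γ) (Q : Subgroup N) :
    (N ⊓ Nm (Q.map N.subtype) : Subgroup Γ) = (Nm Q).map N.subtype := by
  ext x
  constructor
  · rintro ⟨hx, hn⟩
    refine ⟨⟨x, hx⟩, ?_, rfl⟩
    change (⟨x, hx⟩ : N) ∈ Nm Q
    rw [Subgroup.mem_normalizer_iff]
    intro y
    have h1 := (Subgroup.mem_normalizer_iff.1 hn) (y : Γ)
    have h2 : ∀ z : N, (z : Γ) ∈ Q.map N.subtype ↔ z ∈ Q := by
      intro z
      constructor
      · rintro ⟨w, hw, e⟩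
        have : w = z := Subtype.ext e
        rwa [← this]
      · intro hz
        exact Subgroup.mem_map_of_mem N.subtype hz
    rw [← h2 y, h1]
    exact h2 (⟨x, hx⟩ * y * (⟨x, hx⟩ : N)⁻¹)
  · rintro ⟨y, hy, rfl⟩
    refine ⟨y.2, ?_⟩
    change (y : Γ) ∈ Nm (Q.map N.subtype)
    have hy' : y ∈ Nm Q := hy
    rw [Subgroup.mem_normalizer_iff] at hy' ⊢
    intro g
    constructor
    · rintro ⟨w, hw, rfl⟩
      exact ⟨y * w * y⁻¹, (hy' w).1 hw, rfl⟩
    · rintro ⟨w, hw, e⟩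
      refine ⟨y⁻¹ * w * y, (hy' _).2 ?_, ?_⟩
      · have : y * (y⁻¹ * w * y) * y⁻¹ = w := by group
        rw [this]
        exact hw
      · have e' : (w : Γ) = (y : Γ) * g * (y : Γ)⁻¹ := e
        change (y : Γ)⁻¹ * (w : Γ) * (y : Γ) = g
        rw [e']
        group

open Classical in
theorem syl_sum (p : ℕ) [Fact p.Prime] (N : Subgroup Γ) :
    (Nat.card N : ℤ) = ∑ T ∈ (Finset.univ : Finset (Subgroup Γ)).filter (fun T => IsSyl p N T),
      (Nat.card (N ⊓ Nm T : Subgroup Γ) : ℤ) := by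
  have hF : Finite (Sylow p N) := inferInstance
  have : Fintype (Sylow p N) := Fintype.ofFinite _
  have h1 : ∑ T ∈ (Finset.univ : Finset (Subgroup Γ)).filter (fun T => IsSyl p N T),
      (Nat.card (N ⊓ Nm T : Subgroup Γ) : ℤ) =
      ∑ Q : Sylow p N, (Nat.card (Subgroup.normalizer ((Q : Subgroup N) : Set N)) : ℤ) := by
    symm
    refine Finset.sum_bij (fun Q _ => Q.toSubgroup.map N.subtype) ?_ ?_ ?_ ?_
    · intro Q _
      rw [Finset.mem_filter]
      exact ⟨Finset.mem_univ _, isSyl_map p N Q⟩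
    · intro Q _ Q' _ h
      apply Sylow.ext
      exact Subgroup.map_injective N.subtype_injective h
    · intro T hT
      rw [Finset.mem_filter] at hT
      obtain ⟨Q, hQ⟩ := isSyl_comap p N T hT.2
      exact ⟨Q, Finset.mem_univ _, hQ⟩
    · intro Q _
      rw [norm_map N Q.toSubgroup, Subgroup.card_map_of_injective N.subtype_injective]
  rw [h1]
  obtain ⟨Q₀⟩ : Nonempty (Sylow p N) := inferInstance
  have h2 : ∀ Q : Sylow p N,
      Nat.card (Subgroup.normalizer ((Q : Subgroup N) : Set N)) * Nat.card (Sylow p N) =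
        Nat.card N := by
    intro Q
    rw [Q.card_eq_index_normalizer]
    exact Subgroup.card_mul_index _
  have h3 : 0 < Nat.card (Sylow p N) := Nat.card_pos
  have h4 : ∀ Q : Sylow p N, Nat.card (Subgroup.normalizer ((Q : Subgroup N) : Set N)) =
      Nat.card (Subgroup.normalizer ((Q₀ : Subgroup N) : Set N)) := by
    intro Q
    exact Nat.eq_of_mul_eq_mul_right h3 ((h2 Q).trans (h2 Q₀).symm)
  rw [Finset.sum_congr rfl fun Q _ => by rw [h4 Q], Finset.sum_const, Finset.card_univ,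
    ← Nat.card_eq_fintype_card, ← h2 Q₀, nsmul_eq_mul]
  push_cast
  ring

theorem syl_exists (p : ℕ) [Fact p.Prime] (N D : Subgroup Γ) (hD : IsPGroup p D) (h : D ≤ N) :
    ∃ T, IsSyl p N T ∧ D ≤ T := by
  have h1 : IsPGroup p (D.subgroupOf N) := hD.comap_subtype
  obtain ⟨Q, hQ⟩ := h1.exists_le_sylow
  refine ⟨_, isSyl_map p N Q, fun x hx => ?_⟩
  exact ⟨⟨x, h hx⟩, hQ (show (⟨x, h hx⟩ : N) ∈ D.subgroupOf N from hx), rfl⟩

theorem syl_normal (p : ℕ) [Fact p.Prime] (N D T : Subgroup Γ) (hD : IsPGroup p D) (h : D ≤ N)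
    (hn : N ≤ Nm D) (hT : IsSyl p N T) : D ≤ T := by
  obtain ⟨h1, h2, h3⟩ := hT
  have h4 : IsPGroup p (D ⊔ T : Subgroup Γ) := hD.to_sup_of_normal_left' h1 (h2.trans hn)
  have h5 := h3 (D ⊔ T) h4 (sup_le h h2) le_sup_right
  rw [← h5]
  exact le_sup_left

theorem syl_mono (p : ℕ) (N N' T : Subgroup Γ) (hT : IsSyl p N T) (h1 : T ≤ N') (h2 : N' ≤ N) :
    IsSyl p N' T :=
  ⟨hT.1, h1, fun T' hp hle hle' => hT.2.2 T' hp (hle.trans h2) hle'⟩

theorem syl_grow (p : ℕ) [Fact p.Prime] (N T : Subgroup Γ) (h : T ≤ N)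
    (hT : IsSyl p (N ⊓ Nm T) T) : IsSyl p N T := by
  obtain ⟨h1, h2, h3⟩ := hT
  refine ⟨h1, h, fun T' hp hle hle' => ?_⟩
  have h4 : T' ⊓ Nm T = T := by
    refine h3 (T' ⊓ Nm T) (hp.to_le inf_le_left) (inf_le_inf_right _ hle) ?_
    exact le_inf hle' Subgroup.le_normalizer
  have h5 : Group.IsNilpotent T' := hp.isNilpotent
  have h6 : NormalizerCondition T' := Group.normalizerCondition_of_isNilpotent
  by_contra hne
  have h7 : T.subgroupOf T' < ⊤ := by
    rw [lt_top_iff_ne_top]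
    intro htop
    rw [Subgroup.subgroupOf_eq_top] at htop
    exact hne (le_antisymm htop hle')
  have h8 := h6 _ h7
  obtain ⟨x, hx, hx'⟩ := SetLike.exists_of_lt h8
  apply hx'
  change (x : Γ) ∈ T
  rw [← h4]
  refine ⟨x.2, ?_⟩
  change (x : Γ) ∈ Nm T
  rw [Subgroup.mem_normalizer_iff] at hx ⊢
  intro g
  constructor
  · intro hg
    exact (hx ⟨g, hle' hg⟩).1 hg
  · intro hg
    have hgT : g ∈ T' := by
      have h9 := hle' hg
      have h10 : (x : Γ)⁻¹ * ((x : Γ) * g * (x : Γ)⁻¹) * (x : Γ) ∈ T' :=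
        T'.mul_mem (T'.mul_mem (T'.inv_mem x.2) h9) x.2
      have h11 : (x : Γ)⁻¹ * ((x : Γ) * g * (x : Γ)⁻¹) * (x : Γ) = g := by group
      rwa [h11] at h10
    exact (hx ⟨g, hgT⟩).2 hg

end Pool.Agent.NAW
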