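/-
NAW/SylB.lean (job NAW-SylB).  The weighted signed number of normal chains of p-subgroups of C in an
upward closed set S is |C|: syl_sum for C ⊓ Nz c, the terms with T ≠ top c cancel against the chains
with at least two members whose top is Sylow ((c, T) ↦ insert T c), the chains with one member give
syl_sum for C.
-/
import Pool.Agent.NAW.SylA

namespace Pool.Agent.NAW

open Pool.Agent.Nav

universe u

variable {Γ : Type u} [Group Γ] [Finite Γ]

omit [Finite Γ] in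
open Classical in
private theorem sb_insert (T : Subgroup Γ) (c : Finset (Subgroup Γ)) :
    Nz (insert T c) = Nm T ⊓ Nz c := by
  ext x
  rw [Subgroup.mem_inf, mem_Nz, mem_Nz]
  constructor
  · intro h
    exact ⟨h T (Finset.mem_insert_self T c), fun Q hQ => h Q (Finset.mem_insert_of_mem hQ)⟩
  · rintro ⟨h1, h2⟩ Q hQ
    rcases Finset.mem_insert.1 hQ with h | hQ
    · rw [h]
      exact h1
    · exact h2 Q hQ

omit [Finite Γ] in
private theorem sb_anti {c c' : Finset (Subgroup Γ)} (h : c ⊆ c') : Nz c' ≤ Nz c :=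
  fun _ hx => mem_Nz.2 fun Q hQ => mem_Nz.1 hx Q (h hQ)

omit [Finite Γ] in
private theorem sb_facts {p : ℕ} {C : Subgroup Γ} {S : Set (Subgroup Γ)}
    (h1 : ∀ Q ∈ S, IsPGroup p Q ∧ Q ≤ C) {c : Finset (Subgroup Γ)} (hc : IsNC S c) :
    top c ∈ c ∧ top c ∈ S ∧ IsPGroup p (top c) ∧ top c ≤ C ⊓ Nz c ∧ C ⊓ Nz c ≤ Nm (top c) := by
  have ht := top_mem hc.1
  have hS := hc.1.2.1 _ ht
  exact ⟨ht, hS, (h1 _ hS).1, le_inf (h1 _ hS).2 (hc.2 _ ht), inf_le_right.trans (Nz_le ht)⟩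

open Classical in
private theorem sb_fwd {p : ℕ} [Fact p.Prime] {C : Subgroup Γ} {S : Set (Subgroup Γ)}
    (h1 : ∀ Q ∈ S, IsPGroup p Q ∧ Q ≤ C)
    (hup : ∀ Q ∈ S, ∀ R : Subgroup Γ, Q ≤ R → IsPGroup p R → R ≤ C → R ∈ S)
    {c : Finset (Subgroup Γ)} (hc : IsNC S c) {T : Subgroup Γ}
    (hT : IsSyl p (C ⊓ Nz c : Subgroup Γ) T) (hne : T ≠ top c) :
    T ∉ c ∧ IsNC S (insert T c) ∧ top (insert T c) = T ∧
      IsSyl p (C ⊓ Nz (insert T c) : Subgroup Γ) T := by
  obtain ⟨a1, a2, a3, a4, a5⟩ := sb_facts h1 hc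
  have hle : top c ≤ T := syl_normal p _ _ T a3 a4 a5 hT
  have hTN : T ≤ C ⊓ Nz c := hT.2.1
  have hTC : T ≤ C := hTN.trans inf_le_left
  have hTz : T ≤ Nz c := hTN.trans inf_le_right
  have hTS : T ∈ S := hup _ a2 T hle hT.1 hTC
  have hnot : T ∉ c := fun h => hne (le_antisymm (le_top h) hle)
  have hQT : ∀ Q ∈ c, Q ≤ T := fun Q hQ => (le_top hQ).trans hle
  have hnT : T ≤ Nm T := Subgroup.le_normalizer
  have hzi := sb_insert T c
  refine ⟨hnot, ⟨⟨⟨T, Finset.mem_insert_self T c⟩, ?_, ?_⟩, ?_⟩, ?_, ?_⟩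
  · intro Q hQ
    rcases Finset.mem_insert.1 hQ with h | hQ
    · rw [h]
      exact hTS
    · exact hc.1.2.1 Q hQ
  · intro Q hQ R hR
    rcases Finset.mem_insert.1 hQ with h | hQ
    · rcases Finset.mem_insert.1 hR with h' | hR
      · rw [h, h']
        exact Or.inl le_rfl
      · rw [h]
        exact Or.inr (hQT R hR)
    · rcases Finset.mem_insert.1 hR with h' | hR
      · rw [h']
        exact Or.inl (hQT Q hQ)
      · exact hc.1.2.2 Q hQ R hR
  · intro Q hQ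
    rw [hzi]
    rcases Finset.mem_insert.1 hQ with h | hQ
    · rw [h]
      exact le_inf hnT hTz
    · exact le_inf ((hQT Q hQ).trans hnT) (hc.2 Q hQ)
  · refine le_antisymm (Finset.sup_le fun Q hQ => ?_) (le_top (Finset.mem_insert_self T c))
    rcases Finset.mem_insert.1 hQ with h | hQ
    · rw [h]
      exact le_rfl
    · exact hQT Q hQ
  · refine syl_mono p _ _ T hT ?_ ?_
    · rw [hzi]
      exact le_inf hTC (le_inf hnT hTz)
    · rw [hzi]
      exact inf_le_inf_left C inf_le_right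

open Classical in
private theorem sb_bwd {p : ℕ} [Fact p.Prime] {C : Subgroup Γ} {S : Set (Subgroup Γ)}
    (h1 : ∀ Q ∈ S, IsPGroup p Q ∧ Q ≤ C)
    {c : Finset (Subgroup Γ)} (hc : IsNC S c) (hT : IsSyl p (C ⊓ Nz c : Subgroup Γ) (top c))
    (hcard : c.card ≠ 1) : IsNC S (c.erase (top c)) ∧
      IsSyl p (C ⊓ Nz (c.erase (top c)) : Subgroup Γ) (top c) ∧
      top c ≠ top (c.erase (top c)) := by
  obtain ⟨a1, a2, a3, a4, a5⟩ := sb_facts h1 hc
  have hne : (c.erase (top c)).Nonempty := by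
    rw [← Finset.card_pos, Finset.card_erase_of_mem a1]
    have := Finset.card_pos.2 hc.1.1
    omega
  have hsub : c.erase (top c) ⊆ c := Finset.erase_subset _ _
  have hz : Nz c ≤ Nz (c.erase (top c)) := sb_anti hsub
  have hnc : IsNC S (c.erase (top c)) :=
    ⟨⟨hne, fun Q hQ => hc.1.2.1 Q (hsub hQ), fun Q hQ R hR => hc.1.2.2 Q (hsub hQ) R (hsub hR)⟩,
      fun Q hQ => (hc.2 Q (hsub hQ)).trans hz⟩
  refine ⟨hnc, ?_, ?_⟩
  · refine syl_grow p _ _ (a4.trans (inf_le_inf_left C hz)) ?_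
    have e : (C ⊓ Nz (c.erase (top c)) ⊓ Nm (top c) : Subgroup Γ) = C ⊓ Nz c := by
      have h3 := sb_insert (top c) (c.erase (top c))
      rw [Finset.insert_erase a1] at h3
      rw [h3, inf_assoc, inf_comm (Nm (top c))]
    rw [e]
    exact hT
  · intro h
    have h4 := top_mem hnc.1
    rw [← h] at h4
    exact Finset.notMem_erase _ _ h4

omit [Finite Γ] in
private theorem sb_top (T : Subgroup Γ) : top ({T} : Finset (Subgroup Γ)) = T := by
  unfold top
  rw [Finset.sup_singleton]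
  rfl

omit [Finite Γ] in
private theorem sb_nz (T : Subgroup Γ) : Nz ({T} : Finset (Subgroup Γ)) = Nm T := by
  ext x
  rw [mem_Nz]
  constructor
  · intro h
    exact h T (Finset.mem_singleton_self T)
  · intro h Q hQ
    rw [Finset.mem_singleton.1 hQ]
    exact h

theorem nc_sum_card (p : ℕ) [Fact p.Prime] (C : Subgroup Γ) (S : Set (Subgroup Γ))
    (h1 : ∀ Q ∈ S, IsPGroup p Q ∧ Q ≤ C)
    (hup : ∀ Q ∈ S, ∀ R : Subgroup Γ, Q ≤ R → IsPGroup p R → R ≤ C → R ∈ S)
    (hsyl : ∀ T : Subgroup Γ, IsSyl p C T → T ∈ S) :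
    ∑ c ∈ NCs S, sg c * (Nat.card (C ⊓ Nz c : Subgroup Γ) : ℤ) = Nat.card C := by
  classical
  have step : ∀ c ∈ NCs S, sg c * (Nat.card (C ⊓ Nz c : Subgroup Γ) : ℤ) =
      (∑ T : Subgroup Γ, if IsSyl p (C ⊓ Nz c : Subgroup Γ) T ∧ T ≠ top c then
         sg c * (Nat.card (C ⊓ Nz c ⊓ Nm T : Subgroup Γ) : ℤ) else 0) +
      (if IsSyl p (C ⊓ Nz c : Subgroup Γ) (top c) then
        sg c * (Nat.card (C ⊓ Nz c : Subgroup Γ) : ℤ) else 0) := by
    intro c hc
    obtain ⟨a1, a2, a3, a4, a5⟩ := sb_facts h1 (mem_NCs.1 hc)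
    have e1 : (C ⊓ Nz c ⊓ Nm (top c) : Subgroup Γ) = C ⊓ Nz c := inf_eq_left.2 a5
    have e2 := syl_sum p (C ⊓ Nz c : Subgroup Γ)
    calc sg c * (Nat.card (C ⊓ Nz c : Subgroup Γ) : ℤ)
        = sg c * ∑ T ∈ (Finset.univ : Finset (Subgroup Γ)).filter
            (fun T => IsSyl p (C ⊓ Nz c : Subgroup Γ) T),
            (Nat.card (C ⊓ Nz c ⊓ Nm T : Subgroup Γ) : ℤ) := by
          rw [← e2]
      _ = ∑ T : Subgroup Γ, if IsSyl p (C ⊓ Nz c : Subgroup Γ) T then
            sg c * (Nat.card (C ⊓ Nz c ⊓ Nm T : Subgroup Γ) : ℤ) else 0 := by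
          rw [Finset.mul_sum, Finset.sum_filter]
      _ = ∑ T : Subgroup Γ, ((if IsSyl p (C ⊓ Nz c : Subgroup Γ) T ∧ T ≠ top c then
            sg c * (Nat.card (C ⊓ Nz c ⊓ Nm T : Subgroup Γ) : ℤ) else 0) +
            (if T = top c then (if IsSyl p (C ⊓ Nz c : Subgroup Γ) T then
              sg c * (Nat.card (C ⊓ Nz c ⊓ Nm T : Subgroup Γ) : ℤ) else 0) else 0)) := by
          refine Finset.sum_congr rfl fun T _ => ?_
          by_cases hT : T = top c
          · rw [if_neg (fun h : IsSyl p (C ⊓ Nz c : Subgroup Γ) T ∧ T ≠ top c => h.2 hT), if_pos hT,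
              zero_add]
          · by_cases hS : IsSyl p (C ⊓ Nz c : Subgroup Γ) T
            · rw [if_pos hS, if_pos ⟨hS, hT⟩, if_neg hT, add_zero]
            · rw [if_neg hS, if_neg (fun h : IsSyl p (C ⊓ Nz c : Subgroup Γ) T ∧ T ≠ top c => hS h.1),
                if_neg hT, add_zero]
      _ = _ := by
          rw [Finset.sum_add_distrib]
          congr 1
          rw [Finset.sum_ite_eq', if_pos (Finset.mem_univ _), e1]
  rw [Finset.sum_congr rfl step, Finset.sum_add_distrib]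
  -- the pairs and the chains of type B
  set AA := (NCs S ×ˢ (Finset.univ : Finset (Subgroup Γ))).filter
    (fun x => IsSyl p (C ⊓ Nz x.1 : Subgroup Γ) x.2 ∧ x.2 ≠ top x.1) with hAA
  set BB := (NCs S).filter (fun c => IsSyl p (C ⊓ Nz c : Subgroup Γ) (top c)) with hBB
  have eA : (∑ c ∈ NCs S, ∑ T : Subgroup Γ, if IsSyl p (C ⊓ Nz c : Subgroup Γ) T ∧ T ≠ top c then
         sg c * (Nat.card (C ⊓ Nz c ⊓ Nm T : Subgroup Γ) : ℤ) else 0) =
      ∑ x ∈ AA, sg x.1 * (Nat.card (C ⊓ Nz x.1 ⊓ Nm x.2 : Subgroup Γ) : ℤ) := by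
    rw [hAA, Finset.sum_filter, Finset.sum_product]
  have eB : (∑ c ∈ NCs S, if IsSyl p (C ⊓ Nz c : Subgroup Γ) (top c) then
        sg c * (Nat.card (C ⊓ Nz c : Subgroup Γ) : ℤ) else 0) =
      ∑ c ∈ BB, sg c * (Nat.card (C ⊓ Nz c : Subgroup Γ) : ℤ) := by
    rw [hBB, Finset.sum_filter]
  have eB2 := Finset.sum_filter_add_sum_filter_not BB (fun c => c.card = 1)
    (fun c => sg c * (Nat.card (C ⊓ Nz c : Subgroup Γ) : ℤ))
  have eAB : ∑ x ∈ AA, sg x.1 * (Nat.card (C ⊓ Nz x.1 ⊓ Nm x.2 : Subgroup Γ) : ℤ) =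
      - ∑ c ∈ BB.filter (fun c => ¬ c.card = 1), sg c * (Nat.card (C ⊓ Nz c : Subgroup Γ) : ℤ) := by
    rw [← Finset.sum_neg_distrib]
    refine Finset.sum_nbij' (fun x => insert x.2 x.1) (fun c => (c.erase (top c), top c))
      ?_ ?_ ?_ ?_ ?_
    · rintro ⟨c, T⟩ hx
      rw [hAA, Finset.mem_filter, Finset.mem_product, mem_NCs] at hx
      obtain ⟨⟨hc, _⟩, hT, hne⟩ := hx
      obtain ⟨b1, b2, b3, b4⟩ := sb_fwd h1 hup hc hT hne
      rw [Finset.mem_filter, hBB, Finset.mem_filter, mem_NCs]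
      refine ⟨⟨b2, ?_⟩, ?_⟩
      · have b3' : top (insert T c) = T := b3
        show IsSyl p (C ⊓ Nz (insert T c) : Subgroup Γ) (top (insert T c))
        rw [b3']
        exact b4
      · show ¬ (insert T c).card = 1
        have b1' : T ∉ c := b1
        rw [Finset.card_insert_of_notMem b1']
        have h5 : 0 < c.card := Finset.card_pos.2 hc.1.1
        omega
    · intro c hc
      rw [Finset.mem_filter, hBB, Finset.mem_filter, mem_NCs] at hc
      obtain ⟨⟨hc1, hc2⟩, hc3⟩ := hc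
      obtain ⟨b1, b2, b3⟩ := sb_bwd h1 hc1 hc2 hc3
      rw [hAA, Finset.mem_filter, Finset.mem_product, mem_NCs]
      exact ⟨⟨b1, Finset.mem_univ _⟩, b2, b3⟩
    · rintro ⟨c, T⟩ hx
      rw [hAA, Finset.mem_filter, Finset.mem_product, mem_NCs] at hx
      obtain ⟨⟨hc, _⟩, hT, hne⟩ := hx
      obtain ⟨b1, b2, b3, b4⟩ := sb_fwd h1 hup hc hT hne
      have b3' : top (insert T c) = T := b3
      have b1' : T ∉ c := b1
      show ((insert T c).erase (top (insert T c)), top (insert T c)) = (c, T)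
      rw [b3', Finset.erase_insert b1']
    · intro c hc
      rw [Finset.mem_filter, hBB, Finset.mem_filter, mem_NCs] at hc
      obtain ⟨⟨hc1, _⟩, _⟩ := hc
      exact Finset.insert_erase (top_mem hc1.1)
    · rintro ⟨c, T⟩ hx
      rw [hAA, Finset.mem_filter, Finset.mem_product, mem_NCs] at hx
      obtain ⟨⟨hc, _⟩, hT, hne⟩ := hx
      obtain ⟨b1, b2, b3, b4⟩ := sb_fwd h1 hup hc hT hne
      have b1' : T ∉ c := b1
      show sg c * (Nat.card (C ⊓ Nz c ⊓ Nm T : Subgroup Γ) : ℤ) =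
        -(sg (insert T c) * (Nat.card (C ⊓ Nz (insert T c) : Subgroup Γ) : ℤ))
      have e : (C ⊓ Nz (insert T c) : Subgroup Γ) = C ⊓ Nz c ⊓ Nm T := by
        rw [sb_insert, inf_comm (Nm T), inf_assoc]
      rw [e, sg_insert b1']
      ring
  have e1 : ∑ c ∈ BB.filter (fun c => c.card = 1), sg c * (Nat.card (C ⊓ Nz c : Subgroup Γ) : ℤ) =
      Nat.card C := by
    rw [syl_sum p C]
    symm
    refine Finset.sum_nbij' (fun T => {T}) (fun c => top c) ?_ ?_ ?_ ?_ ?_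
    · intro T hT
      rw [Finset.mem_filter] at hT
      have hTC : T ≤ C := hT.2.2.1
      have hnT : T ≤ Nm T := Subgroup.le_normalizer
      rw [Finset.mem_filter, hBB, Finset.mem_filter, mem_NCs]
      refine ⟨⟨⟨⟨Finset.singleton_nonempty T, ?_, ?_⟩, ?_⟩, ?_⟩, Finset.card_singleton T⟩
      · intro Q hQ
        rw [Finset.mem_singleton.1 hQ]
        exact hsyl T hT.2
      · intro Q hQ R hR
        rw [Finset.mem_singleton.1 hQ, Finset.mem_singleton.1 hR]
        exact Or.inl le_rfl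
      · intro Q hQ
        rw [Finset.mem_singleton.1 hQ, sb_nz]
        exact hnT
      · rw [sb_nz, sb_top]
        exact syl_mono p C _ T hT.2 (le_inf hTC hnT) inf_le_left
    · intro c hc
      rw [Finset.mem_filter, hBB, Finset.mem_filter, mem_NCs] at hc
      obtain ⟨⟨hc1, hc2⟩, hc3⟩ := hc
      obtain ⟨Q, rfl⟩ := Finset.card_eq_one.1 hc3
      rw [sb_nz, sb_top] at hc2
      rw [Finset.mem_filter, sb_top]
      exact ⟨Finset.mem_univ _, syl_grow p C Q (hc2.2.1.trans inf_le_left) hc2⟩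
    · intro T _
      exact sb_top T
    · intro c hc
      rw [Finset.mem_filter] at hc
      obtain ⟨Q, rfl⟩ := Finset.card_eq_one.1 hc.2
      rw [sb_top]
    · intro T _
      have h3 : sg ({T} : Finset (Subgroup Γ)) = 1 := by
        unfold sg
        rw [Finset.card_singleton]
        norm_num
      rw [h3, sb_nz, one_mul]
  rw [eA, eB, eAB, ← eB2, e1]
  ring

end Pool.Agent.NAW
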