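/-
NAW/SylC.lean.  If Γ/G is a p-group and G C = Γ then every Sylow p-subgroup T of C satisfies G T = Γ: its
image in Γ/G is a Sylow subgroup of the p-group Γ/G.
-/
import Pool.Agent.NAW.SylA

namespace Pool.Agent.NAW

open Pool.Agent.Nav

universe u

variable {Γ : Type u} [Group Γ] [Finite Γ]

theorem syl_theta (p : ℕ) [Fact p.Prime] (G : Subgroup Γ) [G.Normal] (hp : IsPGroup p (Γ ⧸ G))
    (C T : Subgroup Γ) (hC : G ⊔ C = ⊤) (hT : IsSyl p C T) : T ∈ Theta p G := by
  obtain ⟨hT1, hT2, hT3⟩ := hT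
  have hmapT : (T.subgroupOf C).map C.subtype = T := by
    rw [Subgroup.subgroupOf_map_subtype]
    exact inf_of_le_left hT2
  let P : Sylow p C :=
    { toSubgroup := T.subgroupOf C
      isPGroup' := hT1.comap_of_injective C.subtype C.subtype_injective
      is_maximal' := by
        intro Q hQ hTQ
        have h1 : T ≤ Q.map C.subtype := by
          rw [← hmapT]
          exact Subgroup.map_mono hTQ
        have h2 := hT3 (Q.map C.subtype) (hQ.map C.subtype) (Subgroup.map_subtype_le Q) h1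
        rw [← h2]
        unfold Subgroup.subgroupOf
        exact (Subgroup.comap_map_eq_self_of_injective C.subtype_injective Q).symm }
  have hf : Function.Surjective ((QuotientGroup.mk' G).comp C.subtype) := by
    intro y
    obtain ⟨γ, rfl⟩ := QuotientGroup.mk'_surjective G y
    have h1 : γ ∈ G ⊔ C := by
      rw [hC]
      exact Subgroup.mem_top γ
    obtain ⟨g, hg, c, hc, rfl⟩ := Subgroup.mem_sup_of_normal_left.1 h1
    refine ⟨⟨c, hc⟩, ?_⟩
    rw [map_mul, (QuotientGroup.eq_one_iff g).2 hg |> fun h : QuotientGroup.mk' G g = 1 => h, one_mul]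
    rfl
  have htop : (P.mapSurjective hf : Subgroup (Γ ⧸ G)) = ⊤ :=
    ((P.mapSurjective hf).is_maximal' (hp.of_equiv Subgroup.topEquiv.symm) _root_.le_top).symm
  refine ⟨hT1, ?_⟩
  rw [eq_top_iff]
  intro γ _
  have h1 : QuotientGroup.mk' G γ ∈ (P.mapSurjective hf : Subgroup (Γ ⧸ G)) := by
    rw [htop]
    exact Subgroup.mem_top _
  rw [Sylow.coe_mapSurjective] at h1
  obtain ⟨c, hc, h2⟩ := h1
  have h3 : (c : Γ) ∈ T := hc
  have h4 : (c : Γ)⁻¹ * γ ∈ G := QuotientGroup.eq.1 h2
  have h5 : γ = (c : Γ) * ((c : Γ)⁻¹ * γ) := by group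
  rw [h5]
  exact Subgroup.mul_mem _ (Subgroup.mem_sup_right h3) (Subgroup.mem_sup_left h4)

end Pool.Agent.NAW
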