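/-
NAW/Core.lean. The signed count of commuting pairs over the normal chains of Theta is |Γ| creg p G.
-/
import Pool.Agent.NAW.Loc
import Pool.Agent.NAW.IntA
import Pool.Agent.NAW.IntB
import Pool.Agent.NAW.SylB
import Pool.Agent.NAW.SylC
import Pool.Agent.Nav.CReg

namespace Pool.Agent.NAW

open Pool.Agent.Nav

universe u

variable {Γ : Type u} [Group Γ] [Finite Γ]

theorem core (p : ℕ) [Fact p.Prime] (G : Subgroup Γ) [G.Normal] (hp : IsPGroup p (Γ ⧸ G)) :
    ∑ c ∈ NCs (Theta p G), sg c * (prN p (Nz c) : ℤ) = (Nat.card Γ : ℤ) * (creg p G : ℤ) := by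
  classical
  have : Fintype Γ := Fintype.ofFinite Γ
  rw [sum_prN p (Theta p G)]
  have key : ∀ x : Γ, ¬ p ∣ orderOf x →
      ∑ y ∈ (Finset.univ : Finset Γ).filter (fun y => y ∈ Subgroup.centralizer {x}),
        ∑ c ∈ NCs {Q | Q ∈ Theta p G ∧ x ∈ Nm Q ∧ y ∈ Nm Q}, sg c =
      if G ⊔ Subgroup.centralizer {x} = ⊤ then
        (Nat.card (Subgroup.centralizer ({x} : Set Γ)) : ℤ) else 0 := by
    intro x hx
    have hxG : x ∈ G := creg_mem p G hp hx
    have e1 : ∀ y ∈ (Finset.univ : Finset Γ).filter (fun y => y ∈ Subgroup.centralizer {x}),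
        ∑ c ∈ NCs {Q | Q ∈ Theta p G ∧ x ∈ Nm Q ∧ y ∈ Nm Q}, sg c =
        ∑ c ∈ NCs {Q | Q ∈ {Q | Q ∈ Theta p G ∧ Q ≤ Subgroup.centralizer {x}} ∧ y ∈ Nm Q},
          sg c := by
      intro y hy
      have hy' : y ∈ Subgroup.centralizer {x} := (Finset.mem_filter.1 hy).2
      have hxy : x * y = y * x := by
        have := Subgroup.mem_centralizer_singleton_iff.1 hy'
        first
          | exact this
          | exact this.symm
      rw [loc_xy p G x y hxG hx hxy]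
      have e : {Q : Subgroup Γ | Q ∈ Theta p G ∧ Q ≤ Subgroup.centralizer {x} ∧ y ∈ Nm Q} =
          {Q | Q ∈ {Q | Q ∈ Theta p G ∧ Q ≤ Subgroup.centralizer {x}} ∧ y ∈ Nm Q} := by
        ext Q
        simp only [Set.mem_ofPred_eq, and_assoc]
      rw [e]
    rw [Finset.sum_congr rfl e1, sum_card (Subgroup.centralizer {x})
      {Q | Q ∈ Theta p G ∧ Q ≤ Subgroup.centralizer {x}}]
    split_ifs with hC
    · refine nc_sum_card p (Subgroup.centralizer {x})
        {Q | Q ∈ Theta p G ∧ Q ≤ Subgroup.centralizer {x}} ?_ ?_ ?_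
      · rintro Q ⟨hQ, hQC⟩
        exact ⟨hQ.1, hQC⟩
      · rintro Q ⟨hQ, -⟩ R hQR hR hRC
        refine ⟨⟨hR, ?_⟩, hRC⟩
        exact top_le_iff.1 (hQ.2 ▸ sup_le_sup_left hQR G)
      · intro T hT
        exact ⟨syl_theta p G hp _ T hC hT, hT.2.1⟩
    · have hem : NCs {Q | Q ∈ Theta p G ∧ Q ≤ Subgroup.centralizer {x}} = ∅ := by
        rw [Finset.eq_empty_iff_forall_notMem]
        intro c hc
        obtain ⟨⟨⟨Q, hQ⟩, h2, -⟩, -⟩ := mem_NCs.1 hc
        obtain ⟨h3, h4⟩ := h2 Q hQ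
        exact hC (top_le_iff.1 (h3.2 ▸ sup_le_sup_left h4 G))
      rw [hem, Finset.sum_empty]
  rw [Finset.sum_congr rfl (fun x hx => key x (Finset.mem_filter.1 hx).2), ← Finset.sum_filter,
    Finset.filter_filter]
  have h := card_mul_cregM p G ⊤
  rw [finsum_mem_eq_finite_toFinset_sum _ (Set.toFinite _)] at h
  have h' : (Nat.card Γ : ℤ) * (creg p G : ℤ) = ((Nat.card Γ * cregM p G ⊤ : ℕ) : ℤ) := by
    rw [Nat.cast_mul]
    rfl
  rw [h', h, Nat.cast_sum]
  refine Finset.sum_congr ?_ fun _ _ => rfl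
  ext x
  simp

end Pool.Agent.NAW
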