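/-
NAW/Dfc.lean: the defect of the weight conjecture is invariant under isomorphisms and under
quotients by normal `p`-subgroups.
-/
import Pool.Agent.NAW.Defs
import Pool.Agent.Nav.Split
import Pool.Agent.Nav.Final

namespace Pool.Agent.NAW

open Pool.Agent.Nav
open scoped Pointwise

universe u

/-- the defect in Alperin's weight conjecture, with `p`-regular classes -/
noncomputable def defc (p : ℕ) (H : Type u) [Group H] : ℤ :=
  (creg p (⊤ : Subgroup H) : ℤ) - (weights p (⊤ : Subgroup H) : ℤ)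

theorem defc_congr (p : ℕ) {H H' : Type u} [Group H] [Group H'] [Finite H] (e : H ≃* H') :
    defc p H = defc p H' := by
  have hm : (⊤ : Subgroup H).map e.toMonoidHom = (⊤ : Subgroup H') :=
    Subgroup.map_top_of_surjective _ e.surjective
  have : Finite H' := Finite.of_equiv H e.toEquiv
  unfold defc
  rw [creg_congr p e ⊤ ⊤ hm, weights_congr p e ⊤ ⊤ hm]

theorem defc_quot (p : ℕ) [Fact p.Prime] {H : Type u} [Group H] [Finite H] (Z : Subgroup H) [Z.Normal]
    (hZ : IsPGroup p Z) : defc p (H ⧸ Z) = defc p H := by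
  have hm : (⊤ : Subgroup H).map (QuotientGroup.mk' Z) = (⊤ : Subgroup (H ⧸ Z)) :=
    Subgroup.map_top_of_surjective _ (QuotientGroup.mk'_surjective Z)
  have h1 := creg_quot p (⊤ : Subgroup H) Z hZ (isPGroup_top p H)
  have h2 := weights_quot p (⊤ : Subgroup H) Z hZ
  rw [hm] at h1 h2
  unfold defc
  rw [h1, h2]

theorem defc_sup (p : ℕ) [Fact p.Prime] {Γ : Type u} [Group Γ] [Finite Γ] (N K Z : Subgroup Γ)
    (hK : K ≤ N) (hZ : Z ≤ N) (hn : N ≤ Nm Z) (hp : IsPGroup p Z) (h : N ≤ K ⊔ Z) :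
    defc p N = defc p K := by
  have hnorm : (Z.subgroupOf N).Normal := by
    rw [Subgroup.normal_subgroupOf_iff hZ]
    intro x y hx hy
    have h1 := Subgroup.mem_normalizer_iff.1 (hn hy)
    exact (h1 x).1 hx
  let f : K →* N ⧸ (Z.subgroupOf N) := (QuotientGroup.mk' (Z.subgroupOf N)).comp (Subgroup.inclusion hK)
  have hf : Function.Surjective f := by
    intro y
    obtain ⟨⟨x, hx⟩, rfl⟩ := QuotientGroup.mk'_surjective (Z.subgroupOf N) y
    have hKn : K ≤ Nm Z := hK.trans hn
    have h1 : x ∈ (K : Set Γ) * (Z : Set Γ) := by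
      rw [← Subgroup.coe_mul_of_left_le_normalizer_right K Z hKn]
      exact h hx
    obtain ⟨k, hk, z, hz, hkz⟩ := h1
    refine ⟨⟨k, hk⟩, ?_⟩
    show (QuotientGroup.mk' (Z.subgroupOf N)) (Subgroup.inclusion hK ⟨k, hk⟩) = _
    rw [QuotientGroup.mk'_apply, QuotientGroup.mk'_apply, QuotientGroup.eq, Subgroup.mem_subgroupOf]
    show k⁻¹ * x ∈ Z
    rw [← hkz]
    simpa using hz
  have hker : f.ker = Z.subgroupOf K := by
    ext x
    rw [MonoidHom.mem_ker, Subgroup.mem_subgroupOf]
    show (QuotientGroup.mk' (Z.subgroupOf N)) (Subgroup.inclusion hK x) = 1 ↔ _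
    rw [QuotientGroup.mk'_apply, QuotientGroup.eq_one_iff, Subgroup.mem_subgroupOf]
    rfl
  have hpk : IsPGroup p f.ker := by
    rw [hker]
    exact hp.comap_subtype
  have hpn : IsPGroup p (Z.subgroupOf N) := hp.comap_subtype
  rw [← defc_quot p (Z.subgroupOf N) hpn, ← defc_quot p f.ker hpk]
  exact (defc_congr p (QuotientGroup.quotientKerEquivOfSurjective f hf)).symm

end Pool.Agent.NAW
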