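/-
NAW/Drp.lean: the pair H × 1 ≤ H × P (P a p-group) and the pair H ≤ H; the factor P is removed by the
quotient by the normal p-subgroup 1 × P.
-/
import Pool.Agent.NAW.Defs
import Pool.Agent.Nav.Final

namespace Pool.Agent.NAW

open Pool.Agent.Nav

universe u

theorem prod_quot (H P : Type u) [Group H] [Group P] :
    Nonempty (((H × P) ⧸ (⊤ : Subgroup H).prod (⊥ : Subgroup P)) ≃* P) := by
  have hk : (MonoidHom.snd H P).ker = (⊤ : Subgroup H).prod (⊥ : Subgroup P) := by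
    ext x
    rw [MonoidHom.mem_ker, Subgroup.mem_prod, Subgroup.mem_bot]
    exact ⟨fun h => ⟨Subgroup.mem_top _, h⟩, fun h => h.2⟩
  exact ⟨(QuotientGroup.quotientMulEquivOfEq hk.symm).trans
    (QuotientGroup.quotientKerEquivOfSurjective (MonoidHom.snd H P) Prod.snd_surjective)⟩

theorem drop_prod (p : ℕ) [Fact p.Prime] (H P : Type u) [Group H] [Finite H] [Group P] [Finite P]
    (hP : IsPGroup p P) :
    creg p ((⊤ : Subgroup H).prod (⊥ : Subgroup P)) = weights p ((⊤ : Subgroup H).prod (⊥ : Subgroup P)) ↔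
      creg p (⊤ : Subgroup H) = weights p (⊤ : Subgroup H) := by
  obtain ⟨e1⟩ := prod_quot H P
  have hp : IsPGroup p ((H × P) ⧸ (⊤ : Subgroup H).prod (⊥ : Subgroup P)) := hP.of_equiv e1.symm
  have hZ : IsPGroup p (MonoidHom.fst H P).ker := by
    rintro ⟨⟨x, y⟩, hx⟩
    rw [MonoidHom.mem_ker] at hx
    obtain ⟨k, hk⟩ := hP y
    refine ⟨k, Subtype.ext (Prod.ext ?_ hk)⟩
    show x ^ p ^ k = 1
    have hx1 : x = 1 := hx
    rw [hx1, one_pow]
  rw [eq_quot p ((⊤ : Subgroup H).prod (⊥ : Subgroup P)) (MonoidHom.fst H P).ker hZ hp]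
  have hE : (((⊤ : Subgroup H).prod (⊥ : Subgroup P)).map
      (QuotientGroup.mk' (MonoidHom.fst H P).ker)).map
      (QuotientGroup.quotientKerEquivOfSurjective (MonoidHom.fst H P) Prod.fst_surjective).toMonoidHom =
      (⊤ : Subgroup H) := by
    rw [eq_top_iff]
    intro h _
    refine ⟨QuotientGroup.mk' (MonoidHom.fst H P).ker (h, 1), ⟨(h, 1), ?_, rfl⟩, rfl⟩
    exact Subgroup.mem_prod.2 ⟨Subgroup.mem_top _, Subgroup.one_mem _⟩
  have hn : (((⊤ : Subgroup H).prod (⊥ : Subgroup P)).map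
      (QuotientGroup.mk' (MonoidHom.fst H P).ker)).Normal :=
    Subgroup.Normal.map inferInstance _ (QuotientGroup.mk'_surjective _)
  rw [creg_congr p _ _ _ hE, weights_congr p _ _ _ hE]

end Pool.Agent.NAW
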