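/-
NAW/PrL.lean: |N| times the number of p-regular classes of N is the number of commuting pairs (x, y) in N with x
p-regular.
-/
import Pool.Agent.NAW.Defs
import Pool.Agent.Nav.CReg

namespace Pool.Agent.NAW

open Pool.Agent.Nav

universe u

variable {Γ : Type u} [Group Γ] [Finite Γ]

theorem card_mul_creg_top (p : ℕ) (N : Subgroup Γ) :
    Nat.card N * creg p (⊤ : Subgroup N) = prN p N := by
  classical
  have h := card_mul_cregM (Γ := N) p ⊤ ⊤
  have h0 : creg p (⊤ : Subgroup N) = cregM p (⊤ : Subgroup N) ⊤ := rfl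
  rw [h0, h]
  set S : Set N := {x : N | ¬ p ∣ orderOf x ∧ (⊤ : Subgroup N) ⊔ Subgroup.centralizer {x} = ⊤} with hS
  haveI : Fintype S := Fintype.ofFinite S
  rw [← finsum_set_coe_eq_finsum_mem, finsum_eq_sum_of_fintype,
    ← Nat.card_sigma (β := fun x : S => Subgroup.centralizer ({(x : N)} : Set N))]
  unfold prN
  have hmem : ∀ x : N, x ∈ S ↔ ¬ p ∣ orderOf (x : Γ) := by
    intro x
    rw [Subgroup.orderOf_coe]
    exact ⟨fun h1 => h1.1, fun h1 => ⟨h1, top_sup_eq _⟩⟩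
  refine Nat.card_eq_of_bijective
    (fun q : (Σ x : S, Subgroup.centralizer ({(x : N)} : Set N)) =>
      (⟨(((q.1 : N) : Γ), ((q.2 : N) : Γ)), (q.1 : N).2, (q.2 : N).2, (hmem _).1 q.1.2, by
        have h1 := Subgroup.mem_centralizer_singleton_iff.1 q.2.2
        have h2 := congrArg (Subtype.val : N → Γ) h1
        exact h2.symm⟩ :
        {z : Γ × Γ // z.1 ∈ N ∧ z.2 ∈ N ∧ ¬ p ∣ orderOf z.1 ∧ z.1 * z.2 = z.2 * z.1})) ⟨?_, ?_⟩
  · rintro ⟨⟨x, hx⟩, ⟨y, hy⟩⟩ ⟨⟨x', hx'⟩, ⟨y', hy'⟩⟩ he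
    have h1 := congrArg Subtype.val he
    have h2 : x = x' := Subtype.ext (congrArg Prod.fst h1)
    have h3 : y = y' := Subtype.ext (congrArg Prod.snd h1)
    subst h2
    subst h3
    rfl
  · rintro ⟨⟨x, y⟩, hx, hy, hr, hc⟩
    refine ⟨⟨⟨⟨x, hx⟩, (hmem _).2 hr⟩, ⟨⟨y, hy⟩, ?_⟩⟩, rfl⟩
    rw [Subgroup.mem_centralizer_singleton_iff]
    exact Subtype.ext hc.symm

end Pool.Agent.NAW
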