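import Pool.Agent.NAW.Defs
import Pool.Agent.Nav.Norm

/-!
# NAW-WtA : `dN p N P` depends only on `N ⊓ Nm P`
-/

namespace Pool.Agent.NAW

open Pool.Agent.Nav

universe u

variable {Γ : Type u} [Group Γ] [Finite Γ]

private theorem cardDz {A B : Type u} [Group A] [Group B] (p : ℕ) (K : Subgroup A) [K.Normal]
    (L : Subgroup B) [L.Normal] (e : A ≃* B) (h : ∀ a, a ∈ K ↔ e a ∈ L) :
    Nat.card A * dz p (A ⧸ K) = Nat.card B * dz p (B ⧸ L) := by
  have h1 : K.map e.toMonoidHom = L := by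
    ext b
    constructor
    · rintro ⟨a, ha, rfl⟩
      exact (h a).1 ha
    · intro hb
      refine ⟨e.symm b, (h _).2 ?_, ?_⟩
      · simpa using hb
      · simp
  rw [Nat.card_congr e.toEquiv, dz_congr p (QuotientGroup.congr K L e h1)]

omit [Finite Γ] in
private theorem memNm {N P : Subgroup Γ} (h : P ≤ N) (x : N) :
    x ∈ Nm (P.subgroupOf N) ↔ (x : Γ) ∈ Nm P := by
  have h1 := Subgroup.subgroupOf_normalizer_eq (G := Γ) h
  rw [← Subgroup.mem_subgroupOf]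
  exact (Subgroup.ext_iff.1 h1 x).symm

omit [Finite Γ] in
private theorem nmEquiv {N N' P : Subgroup Γ} (h : P ≤ N) (h' : P ≤ N')
    (hN : N ⊓ Nm P = N' ⊓ Nm P) :
    ∃ e : Nm (P.subgroupOf N) ≃* Nm (P.subgroupOf N'),
      ∀ a, (((e a : Nm (P.subgroupOf N')) : N') : Γ) = ((a : N) : Γ) := by
  have h1 : ∀ a : Nm (P.subgroupOf N), ((a : N) : Γ) ∈ N' ⊓ Nm P := by
    intro a
    rw [← hN]
    exact ⟨(a : N).2, (memNm h _).1 a.2⟩
  have h2 : ∀ a : Nm (P.subgroupOf N'), ((a : N') : Γ) ∈ N ⊓ Nm P := by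
    intro a
    rw [hN]
    exact ⟨(a : N').2, (memNm h' _).1 a.2⟩
  exact ⟨{
    toFun := fun a => ⟨⟨a, (h1 a).1⟩, (memNm h' _).2 (h1 a).2⟩
    invFun := fun a => ⟨⟨a, (h2 a).1⟩, (memNm h _).2 (h2 a).2⟩
    left_inv := fun a => rfl
    right_inv := fun a => rfl
    map_mul' := fun a b => rfl }, fun a => rfl⟩

theorem dN_eq (p : ℕ) (N N' P : Subgroup Γ) (h : P ≤ N) (h' : P ≤ N') (hN : N ⊓ Nm P = N' ⊓ Nm P) :
    dN p N P = dN p N' P := by
  obtain ⟨e, he⟩ := nmEquiv h h' hN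
  refine cardDz p _ _ e fun a => ?_
  rw [Subgroup.mem_subgroupOf, Subgroup.mem_subgroupOf, Subgroup.mem_subgroupOf,
    Subgroup.mem_subgroupOf, he]

theorem dN_big (p : ℕ) (N P : Subgroup Γ) (h : P ≤ N) (hN : Nm P ≤ N) :
    dN p N P = Nat.card (Nm P) * dz p (NQ P) := by
  have h1 : ∀ a : Nm (P.subgroupOf N), ((a : N) : Γ) ∈ Nm P := fun a => (memNm h _).1 a.2
  let e : Nm (P.subgroupOf N) ≃* Nm P := {
    toFun := fun a => ⟨a, h1 a⟩
    invFun := fun a => ⟨⟨a, hN a.2⟩, (memNm h _).2 a.2⟩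
    left_inv := fun a => rfl
    right_inv := fun a => rfl
    map_mul' := fun a b => rfl }
  refine cardDz p _ _ e fun a => ?_
  rw [Subgroup.mem_subgroupOf, Subgroup.mem_subgroupOf, Subgroup.mem_subgroupOf]
  exact Iff.rfl

end Pool.Agent.NAW
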