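/-
NAW/WtB.lean.  The weights of N when D is a normal p-subgroup of N: only the
p-subgroups P of N containing D contribute.
-/
import Pool.Agent.NAW.Defs
import Pool.Agent.Nav.QuotW

namespace Pool.Agent.NAW

open Pool.Agent.Nav

universe u

variable {Γ : Type u} [Group Γ] [Finite Γ]

open Classical in
theorem weights_sum (p : ℕ) [Fact p.Prime] (N D : Subgroup Γ) (hD : IsPGroup p D) (h : D ≤ N)
    (hn : N ≤ Nm D) :
    Nat.card N * weights p (⊤ : Subgroup N) =
      ∑ P ∈ (Finset.univ : Finset (Subgroup Γ)).filter (fun P : Subgroup Γ => IsPGroup p P ∧ D ≤ P ∧ P ≤ N),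
        dN p N P := by
  have hnor : (D.subgroupOf N).Normal := by
    refine ⟨fun x hx g => ?_⟩
    rw [Subgroup.mem_subgroupOf] at hx ⊢
    have h1 := hn g.2
    exact (Subgroup.mem_normalizer_iff.1 h1 x).1 hx
  have hpD : IsPGroup p (D.subgroupOf N) := hD.comap_subtype
  have hfin : (Theta p (⊤ : Subgroup N)).Finite := Set.toFinite _
  unfold weights
  rw [card_mul_wSum p (Theta p (⊤ : Subgroup N)) (theta_conj p ⊤),
    finsum_mem_eq_finite_toFinset_sum _ hfin]
  symm
  refine Finset.sum_of_injOn (fun P : Subgroup Γ => P.subgroupOf N) ?_ ?_ ?_ ?_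
  · intro P hP P' hP' he
    rw [Finset.mem_coe, Finset.mem_filter] at hP hP'
    have h1 : (P.subgroupOf N).map N.subtype = (P'.subgroupOf N).map N.subtype := by
      have he' : P.subgroupOf N = P'.subgroupOf N := he
      rw [he']
    rwa [Subgroup.map_subgroupOf_eq_of_le hP.2.2.2, Subgroup.map_subgroupOf_eq_of_le hP'.2.2.2] at h1
  · intro P hP
    rw [Finset.mem_coe, Finset.mem_filter] at hP
    rw [Finset.mem_coe, Set.Finite.mem_toFinset]
    exact ⟨hP.2.1.comap_subtype, top_sup_eq _⟩
  · intro Q hQ hQn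
    rw [Set.Finite.mem_toFinset] at hQ
    have h2 : ¬ D.subgroupOf N ≤ Q := by
      intro h3
      apply hQn
      refine ⟨Q.map N.subtype, ?_, ?_⟩
      · rw [Finset.mem_coe, Finset.mem_filter]
        refine ⟨Finset.mem_univ _, hQ.1.map _, ?_, Subgroup.map_subtype_le _⟩
        have h4 := Subgroup.map_mono (f := N.subtype) h3
        rwa [Subgroup.map_subgroupOf_eq_of_le h] at h4
      · exact Subgroup.comap_map_eq_self_of_injective N.subtype_injective Q
    rw [dz_not_le p (D.subgroupOf N) Q hpD hQ.1 h2, mul_zero]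
  · intro P _
    rfl

end Pool.Agent.NAW
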