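/-
NAW/Tel.lean.  Telescoping of the weights over the normal chains of Theta.
-/
import Pool.Agent.NAW.WtA
import Pool.Agent.NAW.WtB

namespace Pool.Agent.NAW

open Pool.Agent.Nav

universe u

variable {Γ : Type u} [Group Γ] [Finite Γ]

open Classical in
private noncomputable def FF (p : ℕ) (c : Finset (Subgroup Γ)) : Finset (Subgroup Γ) :=
  (Finset.univ : Finset (Subgroup Γ)).filter
    (fun P : Subgroup Γ => IsPGroup p P ∧ top c ≤ P ∧ P ≤ Nz c)

omit [Finite Γ] in
private theorem tl_Nz_insert [DecidableEq (Subgroup Γ)] (P : Subgroup Γ)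
    (c : Finset (Subgroup Γ)) : Nz (insert P c) = Nm P ⊓ Nz c := by
  ext x
  rw [Subgroup.mem_inf, mem_Nz, mem_Nz, Finset.forall_mem_insert]

omit [Finite Γ] in
private theorem tl_Nz_anti {c c' : Finset (Subgroup Γ)} (h : c ⊆ c') : Nz c' ≤ Nz c :=
  fun _ hx => mem_Nz.2 fun Q hQ => mem_Nz.1 hx Q (h hQ)

omit [Finite Γ] in
private theorem tl_top_insert [DecidableEq (Subgroup Γ)] {P : Subgroup Γ}
    {c : Finset (Subgroup Γ)} (h : top c ≤ P) : top (insert P c) = P := by
  have h1 : top (insert P c) = P ⊔ top c := by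
    unfold top
    rw [Finset.sup_insert]
    rfl
  rw [h1]
  exact sup_eq_left.2 h

omit [Finite Γ] in
private theorem tl_A [DecidableEq (Subgroup Γ)] {p : ℕ} {G : Subgroup Γ}
    {c : Finset (Subgroup Γ)} (hc : IsNC (Theta p G) c) {P : Subgroup Γ} (hP : IsPGroup p P)
    (h1 : top c ≤ P) (h2 : P ≤ Nz c) (h3 : P ≠ top c) :
    P ∉ c ∧ IsNC (Theta p G) (insert P c) := by
  have h4 : P ∉ c := fun h => h3 (le_antisymm (le_top h) h1)
  refine ⟨h4, ⟨⟨P, Finset.mem_insert_self _ _⟩, ?_, ?_⟩, ?_⟩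
  · intro Q hQ
    rcases Finset.mem_insert.1 hQ with h | h
    · rw [h]
      refine ⟨hP, ?_⟩
      have h5 := (hc.1.2.1 _ (top_mem hc.1)).2
      rw [eq_top_iff, ← h5]
      exact sup_le_sup_left h1 G
    · exact hc.1.2.1 Q h
  · intro Q hQ R hR
    rcases Finset.mem_insert.1 hQ with h | h
    · rcases Finset.mem_insert.1 hR with h' | h'
      · left
        rw [h, h']
      · right
        rw [h]
        exact (le_top h').trans h1
    · rcases Finset.mem_insert.1 hR with h' | h'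
      · left
        rw [h']
        exact (le_top h).trans h1
      · exact hc.1.2.2 Q h R h'
  · intro Q hQ
    rw [tl_Nz_insert]
    rcases Finset.mem_insert.1 hQ with h | h
    · rw [h]
      exact le_inf Subgroup.le_normalizer h2
    · exact le_inf (((le_top h).trans h1).trans Subgroup.le_normalizer) (hc.2 Q h)

omit [Finite Γ] in
private theorem tl_B [DecidableEq (Subgroup Γ)] {p : ℕ} {G : Subgroup Γ}
    {c : Finset (Subgroup Γ)} (hc : IsNC (Theta p G) c) (h : 2 ≤ c.card) :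
    IsNC (Theta p G) (c.erase (top c)) ∧ top (c.erase (top c)) ≤ top c ∧
      top c ≤ Nz (c.erase (top c)) ∧ top c ≠ top (c.erase (top c)) := by
  have hm := top_mem hc.1
  have h1 : (c.erase (top c)).card = c.card - 1 := Finset.card_erase_of_mem hm
  have h2 : (c.erase (top c)).Nonempty := by
    rw [← Finset.card_pos]
    omega
  have h3 : c.erase (top c) ⊆ c := Finset.erase_subset _ _
  have h4 : IsNC (Theta p G) (c.erase (top c)) :=
    ⟨⟨h2, fun Q hQ => hc.1.2.1 Q (h3 hQ), fun Q hQ R hR => hc.1.2.2 Q (h3 hQ) R (h3 hR)⟩,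
      fun Q hQ => (hc.2 Q (h3 hQ)).trans (tl_Nz_anti h3)⟩
  have h5 := top_mem h4.1
  refine ⟨h4, le_top (h3 h5), (hc.2 _ hm).trans (tl_Nz_anti h3), ?_⟩
  intro h6
  rw [← h6] at h5
  exact Finset.notMem_erase _ _ h5

theorem tel (p : ℕ) [Fact p.Prime] (G : Subgroup Γ) [G.Normal] :
    ∑ c ∈ NCs (Theta p G), sg c * ((Nat.card (Nz c) : ℤ) * (weights p (⊤ : Subgroup (Nz c)) : ℤ)) =
      (Nat.card Γ : ℤ) * (weights p G : ℤ) := by
  classical
  have hterm : ∀ c ∈ NCs (Theta p G),
      sg c * ((Nat.card (Nz c) : ℤ) * (weights p (⊤ : Subgroup (Nz c)) : ℤ)) =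
      sg c * (dN p (Nz c) (top c) : ℤ) +
        ∑ P ∈ (FF p c).erase (top c), sg c * (dN p (Nz c) P : ℤ) := by
    intro c hc
    have hc' := mem_NCs.1 hc
    have htm := top_mem hc'.1
    have htT := hc'.1.2.1 _ htm
    have h1 := weights_sum p (Nz c) (top c) htT.1 (hc'.2 _ htm) (Nz_le htm)
    have h2 : top c ∈ FF p c := by
      unfold FF
      rw [Finset.mem_filter]
      exact ⟨Finset.mem_univ _, htT.1, le_rfl, hc'.2 _ htm⟩
    have h3 : (Nat.card (Nz c) : ℤ) * (weights p (⊤ : Subgroup (Nz c)) : ℤ) =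
        ∑ P ∈ FF p c, (dN p (Nz c) P : ℤ) := by
      unfold FF
      exact_mod_cast h1
    rw [h3, ← Finset.add_sum_erase _ _ h2, mul_add, Finset.mul_sum]
  have hmF : ∀ (c : Finset (Subgroup Γ)) (P : Subgroup Γ), P ∈ (FF p c).erase (top c) ↔
      P ≠ top c ∧ IsPGroup p P ∧ top c ≤ P ∧ P ≤ Nz c := by
    intro c P
    unfold FF
    rw [Finset.mem_erase, Finset.mem_filter]
    exact ⟨fun h => ⟨h.1, h.2.2⟩, fun h => ⟨h.1, Finset.mem_univ _, h.2⟩⟩
  have hbij : ∑ c ∈ NCs (Theta p G), ∑ P ∈ (FF p c).erase (top c), sg c * (dN p (Nz c) P : ℤ) =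
      ∑ c ∈ (NCs (Theta p G)).filter (fun c => 2 ≤ c.card),
        -(sg c * (dN p (Nz c) (top c) : ℤ)) := by
    rw [Finset.sum_sigma']
    refine Finset.sum_bij' (fun x _ => insert x.2 x.1)
      (fun c _ => (⟨c.erase (top c), top c⟩ : Σ _ : Finset (Subgroup Γ), Subgroup Γ))
      ?_ ?_ ?_ ?_ ?_
    · rintro ⟨c, P⟩ hx
      rw [Finset.mem_sigma] at hx
      obtain ⟨h1, h2, h3, h4⟩ := (hmF c P).1 hx.2
      have hc := mem_NCs.1 hx.1
      obtain ⟨h5, h6⟩ := tl_A hc h2 h3 h4 h1
      rw [Finset.mem_filter, mem_NCs]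
      refine ⟨h6, ?_⟩
      change 2 ≤ (insert P c).card
      rw [Finset.card_insert_of_notMem h5]
      have h7 := hc.1.1.card_pos
      omega
    · intro c hc
      rw [Finset.mem_filter] at hc
      have hc' := mem_NCs.1 hc.1
      obtain ⟨h1, h2, h3, h4⟩ := tl_B hc' hc.2
      rw [Finset.mem_sigma]
      exact ⟨mem_NCs.2 h1, (hmF _ _).2 ⟨h4, (hc'.1.2.1 _ (top_mem hc'.1)).1, h2, h3⟩⟩
    · rintro ⟨c, P⟩ hx
      rw [Finset.mem_sigma] at hx
      obtain ⟨h1, h2, h3, h4⟩ := (hmF c P).1 hx.2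
      obtain ⟨h5, -⟩ := tl_A (mem_NCs.1 hx.1) h2 h3 h4 h1
      have h6 : top (insert P c) = P := tl_top_insert h3
      change (⟨(insert P c).erase (top (insert P c)), top (insert P c)⟩ :
        Σ _ : Finset (Subgroup Γ), Subgroup Γ) = ⟨c, P⟩
      rw [h6, Finset.erase_insert h5]
    · intro c hc
      rw [Finset.mem_filter] at hc
      exact Finset.insert_erase (top_mem (mem_NCs.1 hc.1).1)
    · rintro ⟨c, P⟩ hx
      rw [Finset.mem_sigma] at hx
      obtain ⟨h1, h2, h3, h4⟩ := (hmF c P).1 hx.2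
      obtain ⟨h5, h7⟩ := tl_A (mem_NCs.1 hx.1) h2 h3 h4 h1
      have h6 : top (insert P c) = P := tl_top_insert h3
      change sg c * (dN p (Nz c) P : ℤ) =
        -(sg (insert P c) * (dN p (Nz (insert P c)) (top (insert P c)) : ℤ))
      have h8 : dN p (Nz c) P = dN p (Nz (insert P c)) P := by
        refine dN_eq p _ _ P h4 (h7.2 P (Finset.mem_insert_self _ _)) ?_
        rw [tl_Nz_insert, inf_comm, inf_assoc, inf_comm (Nz c), ← inf_assoc, inf_idem]
      rw [h6, sg_insert h5, h8]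
      ring
  rw [Finset.sum_congr rfl hterm, Finset.sum_add_distrib, hbij, Finset.sum_neg_distrib,
    ← Finset.sum_filter_add_sum_filter_not (NCs (Theta p G)) (fun c => 2 ≤ c.card)
      (fun c => sg c * (dN p (Nz c) (top c) : ℤ)), add_comm, neg_add_cancel_left]
  have hfin : (Theta p G).Finite := Set.toFinite _
  have hR : (Nat.card Γ : ℤ) * (weights p G : ℤ) =
      ∑ Q ∈ hfin.toFinset, ((Nat.card (Nm Q) * dz p (NQ Q) : ℕ) : ℤ) := by
    have h1 := card_mul_wSum p (Theta p G) (theta_conj p G)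
    rw [finsum_mem_eq_finite_toFinset_sum _ hfin] at h1
    have h2 : weights p G = wSum p (Theta p G) := rfl
    rw [h2]
    exact_mod_cast h1
  rw [hR]
  refine (Finset.sum_bij' (fun Q _ => ({Q} : Finset (Subgroup Γ))) (fun c _ => top c)
    ?_ ?_ ?_ ?_ ?_).symm
  · intro Q hQ
    rw [Set.Finite.mem_toFinset] at hQ
    rw [Finset.mem_filter, mem_NCs]
    refine ⟨⟨⟨⟨Q, Finset.mem_singleton_self _⟩, ?_, ?_⟩, ?_⟩, ?_⟩
    · intro R hR
      rw [Finset.mem_singleton.1 hR]
      exact hQ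
    · intro R hR S hS
      left
      rw [Finset.mem_singleton.1 hR, Finset.mem_singleton.1 hS]
    · intro R hR x hx
      rw [mem_Nz]
      intro S hS
      rw [Finset.mem_singleton.1 hS]
      rw [Finset.mem_singleton.1 hR] at hx
      exact Subgroup.le_normalizer hx
    · rw [Finset.card_singleton]
      norm_num
  · intro c hc
    rw [Finset.mem_filter] at hc
    have hc' := mem_NCs.1 hc.1
    rw [Set.Finite.mem_toFinset]
    exact hc'.1.2.1 _ (top_mem hc'.1)
  · intro Q hQ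
    change ({Q} : Finset (Subgroup Γ)).sup id = Q
    rw [Finset.sup_singleton]
    rfl
  · intro c hc
    rw [Finset.mem_filter] at hc
    have hc' := mem_NCs.1 hc.1
    have h1 := hc'.1.1.card_pos
    have h2 : c.card = 1 := by
      have h3 := hc.2
      omega
    obtain ⟨Q, hQ⟩ := Finset.card_eq_one.1 h2
    have h3 := top_mem hc'.1
    rw [hQ] at h3 ⊢
    rw [Finset.mem_singleton.1 h3]
  · intro Q hQ
    have h1 : top ({Q} : Finset (Subgroup Γ)) = Q := by
      change ({Q} : Finset (Subgroup Γ)).sup id = Q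
      rw [Finset.sup_singleton]
      rfl
    have h2 : Nz ({Q} : Finset (Subgroup Γ)) = Nm Q := by
      ext x
      rw [mem_Nz]
      constructor
      · intro h
        exact h Q (Finset.mem_singleton_self _)
      · intro h R hR
        rw [Finset.mem_singleton.1 hR]
        exact h
    have h3 : sg ({Q} : Finset (Subgroup Γ)) = 1 := by
      unfold sg
      rw [Finset.card_singleton]
      norm_num
    rw [h1, h2, h3, one_mul, dN_big p (Nm Q) Q Subgroup.le_normalizer le_rfl]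

end Pool.Agent.NAW
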