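/-
NAW/Frm.lean (job NAW-Frm).  The exact formula.
-/
import Pool.Agent.NAW.Core
import Pool.Agent.NAW.PrL
import Pool.Agent.NAW.Tel
import Pool.Agent.NAW.Dfc

namespace Pool.Agent.NAW

open Pool.Agent.Nav

universe u

variable {Γ : Type u} [Group Γ] [Finite Γ]

theorem formula (p : ℕ) [Fact p.Prime] (G : Subgroup Γ) [G.Normal] (hp : IsPGroup p (Γ ⧸ G)) :
    (Nat.card Γ : ℤ) * ((creg p G : ℤ) - (weights p G : ℤ)) =
      ∑ c ∈ NCs (Theta p G), sg c * ((Nat.card (Nz c) : ℤ) * defc p (G ⊓ Nz c : Subgroup Γ)) := by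
  have h1 := core p G hp
  have h2 := tel p G
  have h3 : (Nat.card Γ : ℤ) * ((creg p G : ℤ) - (weights p G : ℤ)) =
      ∑ c ∈ NCs (Theta p G), (sg c * (prN p (Nz c) : ℤ) -
        sg c * ((Nat.card (Nz c) : ℤ) * (weights p (⊤ : Subgroup (Nz c)) : ℤ))) := by
    rw [Finset.sum_sub_distrib, h1, h2]
    ring
  rw [h3]
  refine Finset.sum_congr rfl fun c hc => ?_
  have hc' := mem_NCs.1 hc
  have ht : top c ∈ c := top_mem hc'.1
  have hT : top c ∈ Theta p G := hc'.1.2.1 _ ht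
  have h4 : defc p (Nz c) = defc p (G ⊓ Nz c : Subgroup Γ) := by
    refine defc_sup p (Nz c) (G ⊓ Nz c) (top c) inf_le_right (hc'.2 _ ht) (Nz_le ht) hT.1 ?_
    intro n hn
    have h5 : n ∈ G ⊔ top c := by
      rw [hT.2]; exact Subgroup.mem_top n
    obtain ⟨g, hg, z, hz, hgz⟩ := Subgroup.mem_sup_of_normal_left.1 h5
    have hzN : z ∈ Nz c := hc'.2 _ ht hz
    have hgN : g ∈ Nz c := by
      have h6 : g = n * z⁻¹ := by rw [← hgz]; group
      rw [h6]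
      exact mul_mem hn (inv_mem hzN)
    rw [← hgz]
    exact mul_mem ((le_sup_left : G ⊓ Nz c ≤ _) ⟨hg, hgN⟩) ((le_sup_right : top c ≤ _) hz)
  rw [← h4]
  have h7 : (prN p (Nz c) : ℤ) = (Nat.card (Nz c) : ℤ) * (creg p (⊤ : Subgroup (Nz c)) : ℤ) := by
    rw [← card_mul_creg_top p (Nz c)]
    push_cast
    ring
  rw [h7]
  unfold defc
  ring

end Pool.Agent.NAW
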