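import Pool.Agent.NAW.Stmt
import Pool.Agent.NAW.Frm
import Pool.Agent.NAW.Awc
import Pool.Agent.NAW.Drp

/-!
# NAW-Fin : the final statements
-/

namespace Pool.Agent.NAW

open Pool.Agent.Nav

universe u v

theorem defect_eq (p : ℕ) [Fact p.Prime] (k : Type v) [Field k] [IsAlgClosed k] [CharP k p]
    (H : Type u) [Group H] [Finite H] : awcDefect p k H = defc p H := by
  unfold awcDefect defc
  rw [card_irr p k H, weights_top p H]

theorem awc_iff (p : ℕ) [Fact p.Prime] (k : Type v) [Field k] [IsAlgClosed k] [CharP k p]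
    (H : Type u) [Group H] [Finite H] : AWC p k H ↔ defc p H = 0 := by
  unfold AWC defc
  rw [card_irr p k H, weights_top p H, sub_eq_zero, Nat.cast_inj]

theorem awc_iff' (p : ℕ) [Fact p.Prime] (k : Type v) [Field k] [IsAlgClosed k] [CharP k p]
    (H : Type u) [Group H] [Finite H] :
    AWC p k H ↔ creg p (⊤ : Subgroup H) = weights p (⊤ : Subgroup H) := by
  unfold AWC
  rw [card_irr p k H, weights_top p H]

/-- (1) the exact formula -/
theorem final1 (p : ℕ) [Fact p.Prime] (k : Type v) [Field k] [IsAlgClosed k] [CharP k p]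
    (Γ : Type u) [Group Γ] [Finite Γ] (G : Subgroup Γ) [G.Normal] (hp : IsPGroup p (Γ ⧸ G)) :
    (Nat.card Γ : ℤ) * ((ibrInv k G : ℤ) - (weights p G : ℤ)) =
      ∑ᶠ c ∈ {c : Finset (Subgroup Γ) | IsNC (Theta p G) c},
        (-1 : ℤ) ^ (c.card + 1) *
          ((Nat.card (Nz c) : ℤ) * awcDefect p k (G ⊓ Nz c : Subgroup Γ)) := by
  have h1 : {c : Finset (Subgroup Γ) | IsNC (Theta p G) c} =
      ((NCs (Theta p G) : Finset (Finset (Subgroup Γ))) : Set (Finset (Subgroup Γ))) := by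
    ext c
    rw [Set.mem_ofPred_eq, Finset.mem_coe, mem_NCs]
  rw [h1, finsum_mem_coe_finset, ibrInv_eq p k G hp, formula p G hp]
  refine Finset.sum_congr rfl fun c _ => ?_
  rw [defect_eq p k]
  rfl

/-- (2) the local form -/
theorem final2 (p : ℕ) [Fact p.Prime] (k : Type v) [Field k] [IsAlgClosed k] [CharP k p]
    (Γ : Type u) [Group Γ] [Finite Γ] (G : Subgroup Γ) [G.Normal] (hp : IsPGroup p (Γ ⧸ G))
    (h : ∀ c : Finset (Subgroup Γ), IsNC (Theta p G) c → AWC p k (G ⊓ Nz c : Subgroup Γ)) :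
    Navarro p k G := by
  rw [nav_iff p k Γ G hp]
  have h1 := formula p G hp
  rw [Finset.sum_eq_zero] at h1
  · have h2 : (Nat.card Γ : ℤ) ≠ 0 := by exact_mod_cast Nat.card_pos.ne'
    have h3 := (mul_eq_zero.1 h1).resolve_left h2
    exact_mod_cast sub_eq_zero.1 h3
  · intro c hc
    rw [(awc_iff p k _).1 (h c (mem_NCs.1 hc)), mul_zero, mul_zero]

/-- (3) proper subgroups suffice when no normal `p`-subgroup supplements `G` -/
theorem final3 (p : ℕ) [Fact p.Prime] (k : Type v) [Field k] [IsAlgClosed k] [CharP k p]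
    (Γ : Type u) [Group Γ] [Finite Γ] (G : Subgroup Γ) [G.Normal] (hp : IsPGroup p (Γ ⧸ G))
    (hZ : ∀ Z : Subgroup Γ, Z.Normal → IsPGroup p Z → G ⊔ Z ≠ ⊤)
    (h : ∀ H : Subgroup Γ, H < G → AWC p k H) : Navarro p k G := by
  refine final2 p k Γ G hp fun c hc => h _ (lt_of_le_of_ne inf_le_left ?_)
  intro h1
  have h2 : G ≤ Nz c := by
    rw [← h1]
    exact inf_le_right
  have h3 := top_mem hc.1
  have h4 := hc.1.2.1 _ h3
  have h5 : (⊤ : Subgroup Γ) ≤ Nm (top c) := by
    rw [← h4.2]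
    exact sup_le (h2.trans (Nz_le h3)) ((hc.2 _ h3).trans (Nz_le h3))
  exact hZ (top c) (Subgroup.normalizer_eq_top_iff.1 (top_le_iff.1 h5)) h4.1 h4.2

/-- (4) the case of a normal `p`-subgroup supplementing `G` -/
theorem final4 (p : ℕ) [Fact p.Prime] (k : Type v) [Field k] [IsAlgClosed k] [CharP k p]
    (Γ : Type u) [Group Γ] [Finite Γ] (G Z : Subgroup Γ) [G.Normal] [Z.Normal] (hZ : IsPGroup p Z)
    (h : G ⊔ Z = ⊤) : Navarro p k G ↔ AWC p k G := by
  have hp := isPGroup_split p Γ G Z hZ h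
  rw [nav_iff p k Γ G hp, awc_iff p k G]
  have h1 : G.map (QuotientGroup.mk' Z) = ⊤ := by
    have h2 := congrArg (Subgroup.map (QuotientGroup.mk' Z)) h
    rw [Subgroup.map_sup, Subgroup.map_top_of_surjective _ (QuotientGroup.mk'_surjective Z),
      QuotientGroup.map_mk'_self, sup_bot_eq] at h2
    exact h2
  have h3 : defc p Γ = defc p G := by
    rw [← defc_sup p (⊤ : Subgroup Γ) G Z _root_.le_top _root_.le_top ?_ hZ h.ge]
    · exact defc_congr p Subgroup.topEquiv.symm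
    · exact (Subgroup.normalizer_eq_top_iff.2 inferInstance).ge
  rw [← h3, ← defc_quot p Z hZ, creg_quot p G Z hZ hp |>.symm, ← weights_quot p G Z hZ, h1]
  unfold defc
  rw [sub_eq_zero, Nat.cast_inj]

/-- (5) one `p`-group `P` is enough -/
theorem final5 (p : ℕ) [Fact p.Prime] (k : Type v) [Field k] [IsAlgClosed k] [CharP k p]
    (P : Type u) [Group P] [Finite P] (hP : IsPGroup p P) :
    (∀ (Γ : Type u) [Group Γ] [Finite Γ] (G : Subgroup Γ) [G.Normal],
      Nonempty ((Γ ⧸ G) ≃* P) → Navarro p k G) ↔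
    ∀ (H : Type u) [Group H] [Finite H], AWC p k H := by
  constructor
  · intro h H _ _
    obtain ⟨e⟩ := prod_quot H P
    have h1 := h (H × P) ((⊤ : Subgroup H).prod (⊥ : Subgroup P)) ⟨e⟩
    rw [nav_iff p k _ _ (hP.of_equiv e.symm), drop_prod p H P hP] at h1
    exact (awc_iff' p k H).2 h1
  · intro h Γ _ _ G _ e
    obtain ⟨e⟩ := e
    exact final2 p k Γ G (hP.of_equiv e.symm) fun c _ => h _

/-- (6) all pairs -/
theorem final6 (p : ℕ) [Fact p.Prime] (k : Type v) [Field k] [IsAlgClosed k] [CharP k p] :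
    (∀ (Γ : Type u) [Group Γ] [Finite Γ] (G : Subgroup Γ) [G.Normal],
      IsPGroup p (Γ ⧸ G) → Navarro p k G) ↔
    ∀ (H : Type u) [Group H] [Finite H], AWC p k H := by
  constructor
  · intro h H _ _
    exact (awc_iff' p k H).2 ((nav_top_iff p k H).1 (h H ⊤ (isPGroup_top p H)))
  · intro h Γ _ _ G _ hp
    exact final2 p k Γ G hp fun c _ => h _

end Pool.Agent.NAW
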