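import Pool.Agent.NAW.Defs

/-!
# NAW-Stmt : Alperin's weight conjecture for a group `H`

`wSum p S` (module `Nav/Defs`) is the sum of `|dz (N(Q)/Q)|` over the conjugacy classes of `Q ∈ S`.
-/

namespace Pool.Agent.NAW

open Pool.Agent.Nav

universe u v

/-- Alperin's weight conjecture for `H` at `p`: the number of irreducible `k`-representations of `H`
is the number of weights, `∑_{Q} |dz (N_H(Q)/Q)|` over the classes of `p`-subgroups `Q` of `H`. -/
def AWC (p : ℕ) (k : Type v) [Field k] (H : Type u) [Group H] : Prop :=
  Nat.card (IrrClass k H) = wSum p {Q : Subgroup H | IsPGroup p Q}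

/-- the difference of the two sides of Alperin's weight conjecture for `H` -/
noncomputable def awcDefect (p : ℕ) (k : Type v) [Field k] (H : Type u) [Group H] : ℤ :=
  (Nat.card (IrrClass k H) : ℤ) - (wSum p {Q : Subgroup H | IsPGroup p Q} : ℤ)

end Pool.Agent.NAW
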